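import Pool.Agent.W729.YL.Core

/-!
Counting intervals on which a periodic function takes both signs.
-/

namespace W729.YL

open Set

/-- `u` takes both signs on `[α, β]` -/
def BS (u : ℝ → ℝ) (α β : ℝ) : Prop :=
  (∃ s ∈ Icc α β, 0 < u s) ∧ (∃ s ∈ Icc α β, u s < 0)

lemma chain {u : ℝ → ℝ} {x : ℕ → ℝ} (hx : ∀ i, x i ≤ x (i + 1)) (N : ℕ) :
    ∀ [DecidablePred fun i => BS u (x i) (x (i + 1))],
    1 ≤ ((Finset.range N).filter (fun i => BS u (x i) (x (i + 1)))).card →
    ∃ k, ((Finset.range N).filter (fun i => BS u (x i) (x (i + 1)))).card ≤ k + 1 ∧ 1 ≤ k ∧
      ∃ t : ℕ → ℝ, (∀ i < k, t i < t (i + 1)) ∧ (∀ i < k, u (t i) * u (t (i + 1)) < 0) ∧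
        x 0 ≤ t 0 ∧ t k ≤ x N := by
  intro _
  have hmono : Monotone x := monotone_nat_of_le_succ hx
  induction N with
  | zero => intro h; simp at h
  | succ N ih =>
    intro h
    by_cases hB : BS u (x N) (x (N + 1))
    · have e : ((Finset.range (N + 1)).filter (fun i => BS u (x i) (x (i + 1)))).card =
          ((Finset.range N).filter (fun i => BS u (x i) (x (i + 1)))).card + 1 := by
        rw [Finset.range_add_one, Finset.filter_insert, if_pos hB, Finset.card_insert_of_notMem]
        simp
      by_cases hc : 1 ≤ ((Finset.range N).filter (fun i => BS u (x i) (x (i + 1)))).card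
      · obtain ⟨k, h1, h2, t, ht1, ht2, ht3, ht4⟩ := ih hc
        have hne : u (t k) ≠ 0 := by
          intro h0
          have := ht2 (k - 1) (by omega)
          rw [show k - 1 + 1 = k by omega, h0] at this
          simp at this
        obtain ⟨s, hs, hss⟩ : ∃ s ∈ Icc (x N) (x (N + 1)), u (t k) * u s < 0 := by
          obtain ⟨⟨s, hs, hs1⟩, ⟨s', hs', hs1'⟩⟩ := hB
          rcases lt_or_gt_of_ne hne with hlt | hgt
          · exact ⟨s, hs, by nlinarith⟩
          · exact ⟨s', hs', by nlinarith⟩
        have hlt : t k < s := by
          refine lt_of_le_of_ne (le_trans ht4 hs.1) ?_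
          intro heq
          rw [heq] at hss
          nlinarith [mul_self_nonneg (u s)]
        refine ⟨k + 1, by omega, by omega, fun i => if i ≤ k then t i else s, ?_, ?_, ?_, ?_⟩
        · intro i hi
          by_cases hik : i < k
          · simp only [show i ≤ k by omega, show i + 1 ≤ k by omega, if_true]
            exact ht1 i hik
          · have : i = k := by omega
            subst this
            simp only [le_refl, if_true, show ¬ (i + 1 ≤ i) by omega, if_false]
            exact hlt
        · intro i hi
          by_cases hik : i < k
          · simp only [show i ≤ k by omega, show i + 1 ≤ k by omega, if_true]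
            exact ht2 i hik
          · have : i = k := by omega
            subst this
            simp only [le_refl, if_true, show ¬ (i + 1 ≤ i) by omega, if_false]
            exact hss
        · simp only [Nat.zero_le, if_true]; exact ht3
        · simp only [show ¬ (k + 1 ≤ k) by omega, if_false]; exact hs.2
      · have hc0 : ((Finset.range N).filter (fun i => BS u (x i) (x (i + 1)))).card = 0 := by omega
        obtain ⟨⟨s, hs, hs1⟩, ⟨s', hs', hs1'⟩⟩ := hB
        have hne : s ≠ s' := by
          intro heq; rw [heq] at hs1; linarith
        have hx0 : x 0 ≤ x N := hmono (Nat.zero_le _)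
        rcases lt_or_gt_of_ne hne with hlt | hgt
        · refine ⟨1, by omega, le_refl _, fun i => if i = 0 then s else s', ?_, ?_, ?_, ?_⟩
          · intro i hi
            have : i = 0 := by omega
            subst this
            simpa using hlt
          · intro i hi
            have : i = 0 := by omega
            subst this
            simp
            nlinarith
          · simp; linarith [hs.1]
          · simp; exact hs'.2
        · refine ⟨1, by omega, le_refl _, fun i => if i = 0 then s' else s, ?_, ?_, ?_, ?_⟩
          · intro i hi
            have : i = 0 := by omega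
            subst this
            simpa using hgt
          · intro i hi
            have : i = 0 := by omega
            subst this
            simp
            nlinarith
          · simp; linarith [hs'.1]
          · simp; exact hs.2
    · have e : ((Finset.range (N + 1)).filter (fun i => BS u (x i) (x (i + 1)))) =
          ((Finset.range N).filter (fun i => BS u (x i) (x (i + 1)))) := by
        rw [Finset.range_add_one, Finset.filter_insert, if_neg hB]
      rw [e] at h ⊢
      obtain ⟨k, h1, h2, t, ht1, ht2, ht3, ht4⟩ := ih h
      exact ⟨k, h1, h2, t, ht1, ht2, ht3, le_trans ht4 (hx N)⟩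

/-- number of intervals with both signs, in terms of the maximal number of sign changes -/
theorem count {u : ℝ → ℝ} {a : ℝ} (ha : 0 < a) (per : ∀ x, u (x + a) = u x) {K : ℝ} (hK0 : 0 ≤ K)
    (hK : ∀ m, Alt u a m → (m : ℝ) ≤ K) {x : ℕ → ℝ} (hx : ∀ i, x i ≤ x (i + 1)) {n : ℕ}
    (hn : x n = x 0 + a) [DecidablePred fun i => BS u (x i) (x (i + 1))] :
    (((Finset.range n).filter (fun i => BS u (x i) (x (i + 1)))).card : ℝ) ≤ 2 * K := by
  by_cases hc : 1 ≤ ((Finset.range n).filter (fun i => BS u (x i) (x (i + 1)))).card
  · obtain ⟨k, h1, h2, t, ht1, ht2, ht3, ht4⟩ := chain (u := u) hx n hc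
    rw [hn] at ht4
    have hne : ∀ i ≤ k, u (t i) ≠ 0 := by
      intro i hi h0
      by_cases hik : i < k
      · have := ht2 i hik
        rw [h0] at this
        simp at this
      · have := ht2 (i - 1) (by omega)
        rw [show i - 1 + 1 = i by omega, h0] at this
        simp at this
    obtain ⟨m, hm, hA⟩ : ∃ m, k ≤ m ∧ Alt u a m := by
      by_cases hsg : u (t k) * u (t 0) < 0
      · refine ⟨k + 1, by omega, fun i => if i ≤ k then t i else t 0 + a, ?_, ?_, ?_⟩
        · intro i hi
          by_cases hik : i < k
          · simp only [show i ≤ k by omega, show i + 1 ≤ k by omega, if_true]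
            exact ht1 i hik
          · have : i = k := by omega
            subst this
            simp only [le_refl, if_true, show ¬ (i + 1 ≤ i) by omega, if_false]
            refine lt_of_le_of_ne (by linarith) ?_
            intro heq
            rw [heq, per] at hsg
            nlinarith [mul_self_nonneg (u (t 0))]
        · simp
        · intro i hi
          by_cases hik : i < k
          · simp only [show i ≤ k by omega, show i + 1 ≤ k by omega, if_true]
            exact ht2 i hik
          · have : i = k := by omega
            subst this
            simp only [le_refl, if_true, show ¬ (i + 1 ≤ i) by omega, if_false]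
            rw [per]
            exact hsg
      · have hpos : 0 < u (t k) * u (t 0) :=
          lt_of_le_of_ne (not_lt.1 hsg) (Ne.symm (mul_ne_zero (hne k le_rfl) (hne 0 (by omega))))
        refine ⟨k, le_rfl, fun i => if i < k then t i else t 0 + a, ?_, ?_, ?_⟩
        · intro i hi
          by_cases hik : i + 1 < k
          · simp only [hi, hik, if_true]
            exact ht1 i hi
          · simp only [hi, hik, if_true, if_false]
            have := ht1 i hi
            rw [show i + 1 = k by omega] at this
            linarith
        · simp [show 0 < k by omega]
        · intro i hi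
          by_cases hik : i + 1 < k
          · simp only [hi, hik, if_true]
            exact ht2 i hi
          · simp only [hi, hik, if_true, if_false]
            have h3 := ht2 i hi
            rw [show i + 1 = k by omega] at h3
            rw [per]
            have key : ∀ A B C : ℝ, A * B < 0 → 0 < B * C → A * C < 0 := by
              intro A B C h1 h2
              have hB : 0 < B * B := by
                rcases eq_or_ne B 0 with h | h
                · rw [h] at h1; simp at h1
                · exact mul_self_pos.2 h
              have h3 : (A * B) * (B * C) < 0 := mul_neg_of_neg_of_pos h1 h2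
              have h4 : (B * B) * (A * C) < 0 := by nlinarith
              by_contra h5
              push Not at h5
              nlinarith [mul_nonneg hB.le h5]
            exact key _ _ _ h3 hpos
    have hm2 := hA.two_le ha per
    have hmK := hK m hA
    have hk : (k : ℝ) ≤ m := by exact_mod_cast hm
    have hm2' : (2 : ℝ) ≤ m := by exact_mod_cast hm2
    have h1' : (((Finset.range n).filter (fun i => BS u (x i) (x (i + 1)))).card : ℝ) ≤ k + 1 := by
      exact_mod_cast h1
    linarith
  · have hc0 : ((Finset.range n).filter (fun i => BS u (x i) (x (i + 1)))).card = 0 := by omega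
    rw [hc0]
    simp
    exact hK0

end W729.YL
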