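import Mathlib

/-!
Sign changes of periodic functions and the smoothing operator `u -> q u - u''`.
-/

namespace W729.YL

open Set Filter Topology

/-- `m` cyclic sign changes of `u` in one period of length `a`. -/
def Alt (u : ℝ → ℝ) (a : ℝ) (m : ℕ) : Prop :=
  ∃ t : ℕ → ℝ, (∀ i < m, t i < t (i + 1)) ∧ t m = t 0 + a ∧ ∀ i < m, u (t i) * u (t (i + 1)) < 0

lemma Alt.two_le {u : ℝ → ℝ} {a : ℝ} (ha : 0 < a) (per : ∀ x, u (x + a) = u x) {m : ℕ}
    (h : Alt u a m) : 2 ≤ m := by
  obtain ⟨t, ht, hm, hs⟩ := h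
  rcases m with _ | _ | m
  · exfalso; linarith
  · exfalso
    have h1 := hs 0 (by norm_num)
    simp only [zero_add] at hm h1
    rw [hm, per] at h1
    nlinarith [mul_self_nonneg (u (t 0))]
  · omega

lemma second_nonpos {u : ℝ → ℝ} {s : ℝ} (hc : ContinuousAt u s) (h : IsLocalMax u s) :
    deriv (deriv u) s ≤ 0 := by
  by_contra hp
  push Not at hp
  have h0 : deriv u s = 0 := h.deriv_eq_zero
  have hmin := isLocalMin_of_deriv_deriv_pos hp h0 hc
  have hconst : u =ᶠ[𝓝 s] fun _ => u s := by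
    filter_upwards [h, hmin] with x h1 h2
    exact le_antisymm h1 h2
  have hd : deriv u =ᶠ[𝓝 s] deriv (fun _ => u s) := hconst.deriv
  have hdd := hd.deriv_eq
  simp at hdd
  linarith

lemma second_nonneg {u : ℝ → ℝ} {s : ℝ} (hc : ContinuousAt u s) (h : IsLocalMin u s) :
    0 ≤ deriv (deriv u) s := by
  have h1 : IsLocalMax (fun x => - u x) s := h.neg
  have h2 := second_nonpos (u := fun x => - u x) hc.neg h1
  have e1 : deriv (fun x => - u x) = fun x => - deriv u x := by
    funext x
    exact deriv.fun_neg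
  rw [e1] at h2
  have e2 : deriv (fun x => - deriv u x) s = - deriv (deriv u) s := deriv.fun_neg
  rw [e2] at h2
  linarith

lemma exists_peak_pos {u : ℝ → ℝ} (hu : Continuous u) {α β τ : ℝ} (h1 : α < τ) (h2 : τ < β)
    (hα : u α = 0) (hβ : u β = 0) (hτ : 0 < u τ) :
    ∃ s, α < s ∧ s < β ∧ 0 < u s ∧ deriv (deriv u) s ≤ 0 := by
  obtain ⟨s, hs, hmax⟩ := isCompact_Icc.exists_isMaxOn (s := Icc α β)
    ⟨τ, ⟨h1.le, h2.le⟩⟩ hu.continuousOn
  have h3 : u τ ≤ u s := hmax ⟨h1.le, h2.le⟩
  have h4 : 0 < u s := lt_of_lt_of_le hτ h3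
  have h5 : α < s := by
    rcases hs.1.eq_or_lt with h | h
    · rw [← h, hα] at h4; exact absurd h4 (lt_irrefl _)
    · exact h
  have h6 : s < β := by
    rcases hs.2.eq_or_lt with h | h
    · rw [h, hβ] at h4; exact absurd h4 (lt_irrefl _)
    · exact h
  refine ⟨s, h5, h6, h4, second_nonpos hu.continuousAt ?_⟩
  exact hmax.isLocalMax (Icc_mem_nhds h5 h6)

lemma exists_peak {u : ℝ → ℝ} (hu : Continuous u) {α β τ : ℝ} (h1 : α < τ) (h2 : τ < β)
    (hα : u α = 0) (hβ : u β = 0) (hτ : u τ ≠ 0) :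
    ∃ s, α < s ∧ s < β ∧ 0 < u s * u τ ∧ deriv (deriv u) s * u τ ≤ 0 := by
  rcases lt_or_gt_of_ne hτ with h | h
  · obtain ⟨s, a1, a2, a3, a4⟩ := exists_peak_pos (u := fun x => - u x) hu.neg h1 h2
      (by simp [hα]) (by simp [hβ]) (by simpa using h)
    have e1 : deriv (fun x => - u x) = fun x => - deriv u x := by
      funext x
      exact deriv.fun_neg
    rw [e1] at a4
    have e2 : deriv (fun x => - deriv u x) s = - deriv (deriv u) s := deriv.fun_neg
    rw [e2] at a4
    refine ⟨s, a1, a2, ?_, ?_⟩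
    · nlinarith
    · nlinarith
  · obtain ⟨s, a1, a2, a3, a4⟩ := exists_peak_pos hu h1 h2 hα hβ h
    exact ⟨s, a1, a2, mul_pos a3 h, mul_nonpos_of_nonpos_of_nonneg a4 h.le⟩

lemma exists_zero {u : ℝ → ℝ} (hu : Continuous u) {α β : ℝ} (h : α < β) (hs : u α * u β < 0) :
    ∃ z, α < z ∧ z < β ∧ u z = 0 := by
  have hα : u α ≠ 0 := fun h0 => by rw [h0] at hs; simp at hs
  have hβ : u β ≠ 0 := fun h0 => by rw [h0] at hs; simp at hs
  have : ∃ z ∈ Icc α β, u z = 0 := by
    rcases lt_or_gt_of_ne hα with h1 | h1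
    · have h2 : 0 < u β := by nlinarith
      exact intermediate_value_Icc h.le hu.continuousOn ⟨h1.le, h2.le⟩
    · have h2 : u β < 0 := by nlinarith
      exact intermediate_value_Icc' h.le hu.continuousOn ⟨h2.le, h1.le⟩
  obtain ⟨z, hz, hz0⟩ := this
  refine ⟨z, lt_of_le_of_ne hz.1 ?_, lt_of_le_of_ne hz.2 ?_, hz0⟩
  · intro h'; rw [← h'] at hz0; exact hα hz0
  · intro h'; rw [h'] at hz0; exact hβ hz0

/-- zeros interlacing the sign changes -/
lemma Alt.zeros {u : ℝ → ℝ} (hu : Continuous u) {m : ℕ} {t : ℕ → ℝ}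
    (ht : ∀ i < m, t i < t (i + 1)) (hs : ∀ i < m, u (t i) * u (t (i + 1)) < 0) :
    ∃ z : ℕ → ℝ, ∀ i < m, t i < z i ∧ z i < t (i + 1) ∧ u (z i) = 0 := by
  have : ∀ i, ∃ z, i < m → t i < z ∧ z < t (i + 1) ∧ u z = 0 := by
    intro i
    by_cases hi : i < m
    · obtain ⟨z, hz⟩ := exists_zero hu (ht i hi) (hs i hi)
      exact ⟨z, fun _ => hz⟩
    · exact ⟨0, fun h => absurd h hi⟩
  choose z hz using this
  exact ⟨z, hz⟩

lemma deriv_per {u : ℝ → ℝ} {a : ℝ} (per : ∀ x, u (x + a) = u x) (x : ℝ) :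
    deriv u (x + a) = deriv u x := by
  have h : (fun x => u (x + a)) = u := funext per
  have h2 := deriv_comp_add_const u a x
  rw [h] at h2
  exact h2.symm

/-- The operator `u -> q u - u''`, `q > 0`, does not lose sign changes. -/
lemma Alt.step {u q : ℝ → ℝ} {a : ℝ} (ha : 0 < a) (hu : Continuous u)
    (per : ∀ x, u (x + a) = u x) (hq : ∀ x, 0 < q x) (qper : ∀ x, q (x + a) = q x) {m : ℕ}
    (h : Alt u a m) : Alt (fun x => q x * u x - deriv (deriv u) x) a m := by
  have hm2 := h.two_le ha per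
  obtain ⟨t, ht, hm, hs⟩ := h
  obtain ⟨z, hz⟩ := Alt.zeros hu ht hs
  have ht0 : ∀ i < m, u (t i) ≠ 0 := by
    intro i hi h0
    have := hs i hi
    rw [h0] at this
    simp at this
  have peak : ∀ i, ∃ s, i < m → ((if i = 0 then z (m - 1) - a else z (i - 1)) < s ∧ s < z i ∧
      0 < (q s * u s - deriv (deriv u) s) * u (t i)) := by
    intro i
    by_cases hi : i < m
    · have hlow : (if i = 0 then z (m - 1) - a else z (i - 1)) < t i ∧
          u (if i = 0 then z (m - 1) - a else z (i - 1)) = 0 := by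
        by_cases h0 : i = 0
        · subst h0
          simp only [if_true]
          have h1 := hz (m - 1) (by omega)
          have e : m - 1 + 1 = m := by omega
          rw [e] at h1
          refine ⟨by linarith [h1.2.1], ?_⟩
          have := per (z (m - 1) - a)
          rw [sub_add_cancel] at this
          rw [← this]
          exact h1.2.2
        · simp only [h0, if_false]
          have h1 := hz (i - 1) (by omega)
          have e : i - 1 + 1 = i := by omega
          rw [e] at h1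
          exact ⟨h1.2.1, h1.2.2⟩
      obtain ⟨s, b1, b2, b3, b4⟩ := exists_peak hu hlow.1 (hz i hi).1 hlow.2 (hz i hi).2.2
        (ht0 i hi)
      refine ⟨s, fun _ => ⟨b1, b2, ?_⟩⟩
      have : 0 < q s * (u s * u (t i)) := mul_pos (hq s) b3
      nlinarith
    · exact ⟨0, fun h => absurd h hi⟩
  choose s hsP using peak
  set F : ℝ → ℝ := fun x => q x * u x - deriv (deriv u) x with hF
  have Fper : ∀ x, F (x + a) = F x := by
    intro x
    simp only [hF]
    rw [qper, per, deriv_per (deriv_per per)]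
  refine ⟨fun i => if i < m then s i else s 0 + a, ?_, ?_, ?_⟩
  · intro i hi
    simp only [hi, if_true]
    by_cases h1 : i + 1 < m
    · simp only [h1, if_true]
      have c1 := (hsP i hi).2.1
      have c2 := (hsP (i + 1) h1).1
      simp at c2
      linarith
    · simp only [h1, if_false]
      have e : i = m - 1 := by omega
      subst e
      have c1 := (hsP (m - 1) hi).2.1
      have c2 := (hsP 0 (by omega)).1
      simp at c2
      linarith
  · simp only [lt_irrefl, if_false]
    rw [if_pos (by omega)]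
  · intro i hi
    have key : ∀ A B p r : ℝ, 0 < A * p → 0 < B * r → p * r < 0 → A * B < 0 := by
      intro A B p r h1 h2 h3
      have h4 : 0 < (A * B) * (p * r) := by
        have := mul_pos h1 h2
        nlinarith
      by_contra h5
      push Not at h5
      nlinarith [mul_nonneg h5 (neg_nonneg.2 h3.le)]
    simp only [hi, if_true]
    by_cases h1 : i + 1 < m
    · simp only [h1, if_true]
      exact key _ _ _ _ (hsP i hi).2.2 (hsP (i + 1) h1).2.2 (hs i hi)
    · simp only [h1, if_false]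
      have e : i + 1 = m := by omega
      have h3 := hs i hi
      rw [e, hm, per] at h3
      have h4 := (hsP 0 (by omega)).2.2
      have h5 : F (s 0 + a) = F (s 0) := Fper _
      have := key _ _ _ _ (hsP i hi).2.2 h4 h3
      simp only [hF] at h5 ⊢
      rw [h5]
      exact this

lemma Alt.smul {u : ℝ → ℝ} {a : ℝ} {m : ℕ} (h : Alt u a m) {c : ℝ} (hc : 0 < c) :
    Alt (fun x => c * u x) a m := by
  obtain ⟨t, ht, hm, hs⟩ := h
  refine ⟨t, ht, hm, fun i hi => ?_⟩
  have := hs i hi
  have h2 : 0 < c * c := mul_pos hc hc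
  nlinarith

/-- two close zeros -/
lemma Alt.close_zeros {u : ℝ → ℝ} (hu : Continuous u) {a : ℝ} (ha : 0 < a)
    (per : ∀ x, u (x + a) = u x) {m : ℕ} (h : Alt u a m) :
    ∃ z z', z ∈ Icc 0 a ∧ z < z' ∧ z' ≤ z + a / m ∧ u z = 0 ∧ u z' = 0 := by
  have hm2 := h.two_le ha per
  obtain ⟨t, ht, hm, hs⟩ := h
  obtain ⟨z, hz⟩ := Alt.zeros hu ht hs
  set y : ℕ → ℝ := fun i => if i < m then z i else z 0 + a with hy
  have hy0 : ∀ i ≤ m, u (y i) = 0 := by
    intro i hi
    simp only [hy]
    split_ifs with h1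
    · exact (hz i h1).2.2
    · rw [per]; exact (hz 0 (by omega)).2.2
  have hylt : ∀ i < m, y i < y (i + 1) := by
    intro i hi
    simp only [hy, hi, if_true]
    split_ifs with h1
    · exact lt_trans (hz i hi).2.1 (hz (i + 1) h1).1
    · have e : i + 1 = m := by omega
      have c1 := (hz i hi).2.1
      rw [e, hm] at c1
      have c2 := (hz 0 (by omega)).1
      linarith
  have hsum : ∑ i ∈ Finset.range m, (y (i + 1) - y i) = a := by
    rw [Finset.sum_range_sub]
    simp only [hy, lt_irrefl, if_false]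
    rw [if_pos (by omega : 0 < m)]
    ring
  have hmpos : (0 : ℝ) < m := by exact_mod_cast (by omega : 0 < m)
  obtain ⟨i, hi, hile⟩ : ∃ i ∈ Finset.range m, y (i + 1) - y i ≤ a / m := by
    apply Finset.exists_le_of_sum_le
    · exact ⟨0, Finset.mem_range.2 (by omega)⟩
    · rw [hsum]
      simp
      field_simp
      rfl
  rw [Finset.mem_range] at hi
  have hper : Function.Periodic u a := per
  set n : ℤ := ⌊y i / a⌋ with hn
  have f1 : (n : ℝ) * a ≤ y i := by
    have := Int.floor_le (y i / a)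
    rw [← hn] at this
    calc (n : ℝ) * a ≤ (y i / a) * a := by gcongr
      _ = y i := by field_simp
  have f2 : y i < ((n : ℝ) + 1) * a := by
    have := Int.lt_floor_add_one (y i / a)
    rw [← hn] at this
    calc y i = (y i / a) * a := by field_simp
      _ < ((n : ℝ) + 1) * a := by gcongr
  refine ⟨y i - n * a, y (i + 1) - n * a, ⟨by linarith, by linarith⟩, ?_, ?_, ?_, ?_⟩
  · linarith [hylt i hi]
  · linarith
  · rw [hper.sub_int_mul_eq]; exact hy0 i hi.le
  · rw [hper.sub_int_mul_eq]; exact hy0 (i + 1) hi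

end W729.YL
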