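import Pool.Agent.W729.YL.Core

/-!
Sturm comparison, uniqueness, and the sign change bound for sums of eigenfunctions of
`u -> u'' + F u` on a circle.
-/

namespace W729.YL

open Set Filter Topology

lemma hasDerivAt_of_smooth {u : ℝ → ℝ} (hu : ContDiff ℝ 2 u) (x : ℝ) :
    HasDerivAt u (deriv u x) x :=
  (hu.differentiable (by norm_num)).differentiableAt.hasDerivAt

lemma contDiff_deriv {u : ℝ → ℝ} (hu : ContDiff ℝ 2 u) : ContDiff ℝ 1 (deriv u) := by
  have h : ContDiff ℝ (1 + 1) u := by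
    have e : (1 : WithTop ℕ∞) + 1 = 2 := by norm_num
    rw [e]; exact hu
  exact (contDiff_succ_iff_deriv.1 h).2.2

lemma hasDerivAt_deriv {u : ℝ → ℝ} (hu : ContDiff ℝ 2 u) (x : ℝ) :
    HasDerivAt (deriv u) (deriv (deriv u) x) x :=
  ((contDiff_deriv hu).differentiable (by norm_num)).differentiableAt.hasDerivAt

/-- uniqueness for `w'' = c w` -/
lemma ode_zero {w c : ℝ → ℝ} (hw : ContDiff ℝ 2 w) {K : ℝ} (hK : ∀ x, |c x| ≤ K)
    (eq : ∀ x, deriv (deriv w) x = c x * w x) {x₀ : ℝ} (h0 : w x₀ = 0) (h1 : deriv w x₀ = 0) :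
    ∀ x, w x = 0 := by
  have hK0 : 0 ≤ K := le_trans (abs_nonneg _) (hK 0)
  set L : NNReal := ⟨max 1 K, le_max_of_le_left zero_le_one⟩ with hL
  have key : (fun x => (w x, deriv w x)) = fun _ => ((0 : ℝ), (0 : ℝ)) := by
    refine ODE_solution_unique_univ (v := fun t p => (p.2, c t * p.1)) (K := L)
      (s := fun _ => univ) (t₀ := x₀) ?_ ?_ ?_ ?_
    · intro t
      refine LipschitzWith.lipschitzOnWith ?_
      refine LipschitzWith.of_dist_le_mul fun p q => ?_
      have hLv : ((L : NNReal) : ℝ) = max 1 K := rfl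
      simp only [Prod.dist_eq, Real.dist_eq, hLv]
      have a1 : |p.2 - q.2| ≤ max |p.1 - q.1| |p.2 - q.2| := le_max_right _ _
      have a2 : |p.1 - q.1| ≤ max |p.1 - q.1| |p.2 - q.2| := le_max_left _ _
      have b1 : (1 : ℝ) ≤ max 1 K := le_max_left _ _
      have b2 : K ≤ max 1 K := le_max_right _ _
      have b0 : 0 ≤ max |p.1 - q.1| |p.2 - q.2| := le_trans (abs_nonneg _) a1
      refine max_le ?_ ?_
      · calc |p.2 - q.2| ≤ 1 * max |p.1 - q.1| |p.2 - q.2| := by linarith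
          _ ≤ max 1 K * max |p.1 - q.1| |p.2 - q.2| := by gcongr
      · rw [← mul_sub, abs_mul]
        exact mul_le_mul (le_trans (hK t) b2) a2 (abs_nonneg _) (by linarith)
    · intro t
      refine ⟨?_, mem_univ _⟩
      have e1 := hasDerivAt_of_smooth hw t
      have e2 := hasDerivAt_deriv hw t
      rw [eq t] at e2
      exact e1.prodMk e2
    · intro t
      refine ⟨?_, mem_univ _⟩
      simp only [mul_zero]
      exact hasDerivAt_const _ _
    · simp [h0, h1]
  intro x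
  have := congrFun key x
  simp only [Prod.mk.injEq] at this
  exact this.1

lemma sturm_gap_aux {w p : ℝ → ℝ} {κ : ℝ} (hκ : 0 < κ) (hw : ContDiff ℝ 2 w)
    (eq : ∀ x, deriv (deriv w) x = -(p x) * w x) (hp : ∀ x, p x ≤ κ ^ 2) {z z' : ℝ} (hz : z < z')
    (h0 : w z = 0) (h0' : w z' = 0) (hlt : κ * (z' - z) < Real.pi) {x₁ : ℝ}
    (hx₁ : x₁ ∈ Icc z z') : w x₁ ≤ 0 := by
  by_contra hpos
  push Not at hpos
  have hd : 0 < z' - z := by linarith
  obtain ⟨κ', hκ1, hκ2⟩ : ∃ κ', κ < κ' ∧ κ' * (z' - z) < Real.pi := by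
    have : κ < Real.pi / (z' - z) := by rw [lt_div_iff₀ hd]; exact hlt
    obtain ⟨κ', h1, h2⟩ := exists_between this
    exact ⟨κ', h1, by rwa [lt_div_iff₀ hd] at h2⟩
  have hκ' : 0 < κ' := lt_trans hκ hκ1
  set c : ℝ := (z + z') / 2 with hc
  set g : ℝ → ℝ := fun x => Real.cos (κ' * (x - c)) with hg
  have hgpos : ∀ x ∈ Icc z z', 0 < g x := by
    intro x hx
    apply Real.cos_pos_of_mem_Ioo
    constructor
    · have : -((z' - z) / 2) ≤ x - c := by rw [hc]; linarith [hx.1]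
      nlinarith
    · have : x - c ≤ (z' - z) / 2 := by rw [hc]; linarith [hx.2]
      nlinarith
  have hgc : Continuous g := by
    simp only [hg]; fun_prop
  have hcont : ContinuousOn (fun x => w x / g x) (Icc z z') :=
    hw.continuous.continuousOn.div hgc.continuousOn fun x hx => (hgpos x hx).ne'
  obtain ⟨x₀, hx₀, hmax⟩ := isCompact_Icc.exists_isMaxOn ⟨x₁, hx₁⟩ hcont
  have hM1 : 0 < w x₁ / g x₁ := div_pos hpos (hgpos _ hx₁)
  have hM : 0 < w x₀ / g x₀ := lt_of_lt_of_le hM1 (hmax hx₁)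
  set M : ℝ := w x₀ / g x₀ with hMdef
  have hw0 : w x₀ = M * g x₀ := by rw [hMdef]; field_simp [(hgpos _ hx₀).ne']
  have hw0pos : 0 < w x₀ := by rw [hw0]; exact mul_pos hM (hgpos _ hx₀)
  have i1 : z < x₀ := by
    rcases hx₀.1.eq_or_lt with h | h
    · rw [← h, h0] at hw0pos; exact absurd hw0pos (lt_irrefl _)
    · exact h
  have i2 : x₀ < z' := by
    rcases hx₀.2.eq_or_lt with h | h
    · rw [h, h0'] at hw0pos; exact absurd hw0pos (lt_irrefl _)
    · exact h
  have hloc : IsLocalMax (fun x => w x - M * g x) x₀ := by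
    filter_upwards [Icc_mem_nhds i1 i2] with x hx
    have h1 : w x / g x ≤ M := hmax hx
    rw [div_le_iff₀ (hgpos x hx)] at h1
    rw [hw0]
    linarith
  have dg : ∀ x, HasDerivAt g (-(κ' * Real.sin (κ' * (x - c)))) x := by
    intro x
    have h1 : HasDerivAt (fun x => κ' * (x - c)) (κ' * 1) x :=
      ((hasDerivAt_id x).sub_const c).const_mul κ'
    have h2 := h1.cos
    have e : -(κ' * Real.sin (κ' * (x - c))) = -Real.sin (κ' * (x - c)) * (κ' * 1) := by ring
    rw [e]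
    exact h2
  have dg' : deriv g = fun x => -(κ' * Real.sin (κ' * (x - c))) := funext fun x => (dg x).deriv
  have ddg : ∀ x, HasDerivAt (deriv g) (-(κ' ^ 2 * g x)) x := by
    intro x
    have h1 : HasDerivAt (fun x => κ' * (x - c)) (κ' * 1) x :=
      ((hasDerivAt_id x).sub_const c).const_mul κ'
    have h2 := (h1.sin.const_mul κ').neg
    rw [dg']
    have e : -(κ' ^ 2 * g x) = -(κ' * (Real.cos (κ' * (x - c)) * (κ' * 1))) := by
      simp only [hg]; ring
    rw [e]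
    exact h2
  have dψ : deriv (fun x => w x - M * g x) = fun x => deriv w x - M * deriv g x := by
    funext x
    have := (hasDerivAt_of_smooth hw x).sub ((dg x).const_mul M)
    rw [(dg x).deriv]
    exact this.deriv
  have ddψ : deriv (deriv (fun x => w x - M * g x)) x₀ =
      deriv (deriv w) x₀ - M * (-(κ' ^ 2 * g x₀)) := by
    rw [dψ]
    exact ((hasDerivAt_deriv hw x₀).sub ((ddg x₀).const_mul M)).deriv
  have hcψ : Continuous (fun x => w x - M * g x) := hw.continuous.sub (continuous_const.mul hgc)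
  have hle := second_nonpos hcψ.continuousAt hloc
  rw [ddψ, eq x₀, hw0] at hle
  have hgx := hgpos x₀ hx₀
  have hpx := hp x₀
  have h3 : κ ^ 2 < κ' ^ 2 := by nlinarith
  have h4 : 0 < M * g x₀ * (κ' ^ 2 - p x₀) := mul_pos (mul_pos hM hgx) (by linarith)
  nlinarith

lemma sturm_gap {w p : ℝ → ℝ} {κ : ℝ} (hκ : 0 < κ) (hw : ContDiff ℝ 2 w)
    (eq : ∀ x, deriv (deriv w) x = -(p x) * w x) (hp : ∀ x, p x ≤ κ ^ 2) {z z' : ℝ} (hz : z < z')
    (h0 : w z = 0) (h0' : w z' = 0) (hlt : κ * (z' - z) < Real.pi) :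
    ∀ x ∈ Icc z z', w x = 0 := by
  intro x hx
  refine le_antisymm (sturm_gap_aux hκ hw eq hp hz h0 h0' hlt hx) ?_
  have e1 : deriv (fun x => - w x) = fun x => - deriv w x := by
    funext x
    exact deriv.fun_neg
  have := sturm_gap_aux (w := fun x => - w x) (p := p) hκ hw.neg (by
    intro y
    rw [e1]
    have e2 : deriv (fun x => - deriv w x) y = - deriv (deriv w) y := deriv.fun_neg
    rw [e2, eq y]; ring) hp hz (by simp [h0]) (by simp [h0']) hlt hx
  simpa using this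

/-- a periodic solution of `w'' = c w` with `c > 0` vanishes -/
lemma nonosc {w c : ℝ → ℝ} {a : ℝ} (ha : 0 < a) (hw : Continuous w)
    (per : ∀ x, w (x + a) = w x) (hc : ∀ x, 0 < c x)
    (eq : ∀ x, deriv (deriv w) x = c x * w x) : ∀ x, w x = 0 := by
  have hper : Function.Periodic w a := per
  have aux : ∀ v : ℝ → ℝ, Continuous v → Function.Periodic v a →
      (∀ x, deriv (deriv v) x = c x * v x) → ∀ x, v x ≤ 0 := by
    intro v hv hvp hve x
    obtain ⟨s, hs, hmax⟩ := isCompact_Icc.exists_isMaxOn (s := Icc 0 a) ⟨0, ⟨le_rfl, ha.le⟩⟩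
      hv.continuousOn
    have hglob : ∀ y, v y ≤ v s := by
      intro y
      obtain ⟨y', hy', e⟩ := hvp.exists_mem_Ico₀ ha y
      rw [e]
      exact hmax ⟨hy'.1, hy'.2.le⟩
    have hloc : IsLocalMax v s := Filter.Eventually.of_forall hglob
    have h1 := second_nonpos hv.continuousAt hloc
    rw [hve s] at h1
    have h2 : v s ≤ 0 := by
      by_contra h
      push Not at h
      have := mul_pos (hc s) h
      linarith
    exact le_trans (hglob x) h2
  intro x
  refine le_antisymm (aux w hw hper eq x) ?_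
  have e1 : deriv (fun x => - w x) = fun x => - deriv w x := by
    funext x
    exact deriv.fun_neg
  have := aux (fun x => - w x) hw.neg (fun y => by simp [hper y]) (by
    intro y
    rw [e1]
    have e2 : deriv (fun x => - deriv w x) y = - deriv (deriv w) y := deriv.fun_neg
    rw [e2, eq y]; ring) x
  simpa using this

lemma bdd_per {F : ℝ → ℝ} {a : ℝ} (ha : 0 < a) (hF : Continuous F) (per : ∀ x, F (x + a) = F x) :
    ∃ K, ∀ x, |F x| ≤ K := by
  have hper : Function.Periodic F a := per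
  obtain ⟨s, hs, hmax⟩ := isCompact_Icc.exists_isMaxOn (s := Icc 0 a) ⟨0, ⟨le_rfl, ha.le⟩⟩
      hF.abs.continuousOn
  refine ⟨|F s|, fun x => ?_⟩
  obtain ⟨y', hy', e⟩ := hper.exists_mem_Ico₀ ha x
  rw [e]
  exact hmax ⟨hy'.1, hy'.2.le⟩

/-- iterates -/
noncomputable def It (s : Finset ℝ) (w : ℝ → ℝ → ℝ) (M : ℝ) (k : ℕ) (x : ℝ) : ℝ :=
  ∑ μ ∈ s, (M - μ) ^ k * w μ x

lemma It_contDiff {s : Finset ℝ} {w : ℝ → ℝ → ℝ} (hw : ∀ μ ∈ s, ContDiff ℝ 2 (w μ)) (M : ℝ)
    (k : ℕ) : ContDiff ℝ 2 (It s w M k) := by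
  unfold It
  exact ContDiff.sum fun μ hμ => contDiff_const.mul (hw μ hμ)

lemma It_deriv {s : Finset ℝ} {w : ℝ → ℝ → ℝ} (hw : ∀ μ ∈ s, ContDiff ℝ 2 (w μ)) (M : ℝ)
    (k : ℕ) (x : ℝ) : deriv (It s w M k) x = ∑ μ ∈ s, (M - μ) ^ k * deriv (w μ) x := by
  have : HasDerivAt (It s w M k) (∑ μ ∈ s, (M - μ) ^ k * deriv (w μ) x) x := by
    have h := HasDerivAt.fun_sum (u := s) (A := fun μ y => (M - μ) ^ k * w μ y)
      (A' := fun μ => (M - μ) ^ k * deriv (w μ) x) (x := x)
      (fun μ hμ => (hasDerivAt_of_smooth (hw μ hμ) x).const_mul _)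
    exact h
  exact this.deriv

lemma It_deriv2 {s : Finset ℝ} {w : ℝ → ℝ → ℝ} (hw : ∀ μ ∈ s, ContDiff ℝ 2 (w μ)) (M : ℝ)
    (k : ℕ) (x : ℝ) :
    deriv (deriv (It s w M k)) x = ∑ μ ∈ s, (M - μ) ^ k * deriv (deriv (w μ)) x := by
  have e : deriv (It s w M k) = fun y => ∑ μ ∈ s, (M - μ) ^ k * deriv (w μ) y :=
    funext fun y => It_deriv hw M k y
  rw [e]
  have h := HasDerivAt.fun_sum (u := s) (A := fun μ y => (M - μ) ^ k * deriv (w μ) y)
      (A' := fun μ => (M - μ) ^ k * deriv (deriv (w μ)) x) (x := x)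
      (fun μ hμ => (hasDerivAt_deriv (hw μ hμ) x).const_mul _)
  exact h.deriv

lemma It_alt {a : ℝ} (ha : 0 < a) {F : ℝ → ℝ} (Fper : ∀ x, F (x + a) = F x) {s : Finset ℝ}
    {w : ℝ → ℝ → ℝ} (hw : ∀ μ ∈ s, ContDiff ℝ 2 (w μ)) (wper : ∀ μ ∈ s, ∀ x, w μ (x + a) = w μ x)
    (eq : ∀ μ ∈ s, ∀ x, deriv (deriv (w μ)) x = (μ - F x) * w μ x) {M : ℝ} (hM : ∀ x, F x < M)
    {m : ℕ} (h : Alt (It s w M 0) a m) (k : ℕ) : Alt (It s w M k) a m := by
  induction k with
  | zero => exact h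
  | succ k ih =>
    have per : ∀ x, It s w M k (x + a) = It s w M k x := by
      intro x
      unfold It
      refine Finset.sum_congr rfl fun μ hμ => ?_
      rw [wper μ hμ]
    have := ih.step ha (It_contDiff hw M k).continuous per (q := fun x => M - F x)
      (fun x => by linarith [hM x]) (fun x => by simp only [Fper])
    have e : (fun x => (M - F x) * It s w M k x - deriv (deriv (It s w M k)) x) =
        It s w M (k + 1) := by
      funext x
      rw [It_deriv2 hw]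
      unfold It
      rw [Finset.mul_sum, ← Finset.sum_sub_distrib]
      refine Finset.sum_congr rfl fun μ hμ => ?_
      rw [eq μ hμ x]
      ring
    rw [e] at this
    exact this

/-- **Sign change bound for sums of eigenfunctions.** -/
theorem core {a : ℝ} (ha : 0 < a) {F : ℝ → ℝ} (hF : Continuous F) (Fper : ∀ x, F (x + a) = F x)
    (s : Finset ℝ) (w : ℝ → ℝ → ℝ) (hw : ∀ μ ∈ s, ContDiff ℝ 2 (w μ))
    (wper : ∀ μ ∈ s, ∀ x, w μ (x + a) = w μ x)
    (eq : ∀ μ ∈ s, ∀ x, deriv (deriv (w μ)) x = (μ - F x) * w μ x) {κ : ℝ} (hκ : 0 < κ)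
    (hP : ∀ μ ∈ s, (∃ x, w μ x ≠ 0) → ∀ x, F x - μ ≤ κ ^ 2) {m : ℕ}
    (h : Alt (fun x => ∑ μ ∈ s, w μ x) a m) : (m : ℝ) * Real.pi ≤ a * κ := by
  classical
  obtain ⟨K, hK⟩ := bdd_per ha hF Fper
  set M : ℝ := K + 1 with hMdef
  have hM : ∀ x, F x < M := fun x => by
    have := le_trans (le_abs_self _) (hK x)
    linarith
  -- remove the zero summands
  set s' : Finset ℝ := s.filter (fun μ => ∃ x, w μ x ≠ 0) with hs'
  have hsub : ∀ μ ∈ s', μ ∈ s := fun μ hμ => (Finset.mem_filter.1 hμ).1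
  have hne : ∀ μ ∈ s', ∃ x, w μ x ≠ 0 := fun μ hμ => (Finset.mem_filter.1 hμ).2
  have hsum : (fun x => ∑ μ ∈ s, w μ x) = It s' w M 0 := by
    funext x
    unfold It
    simp only [pow_zero, one_mul]
    symm
    apply Finset.sum_subset (Finset.filter_subset _ _)
    intro μ hμ hnot
    by_contra h0
    exact hnot (Finset.mem_filter.2 ⟨hμ, x, h0⟩)
  rw [hsum] at h
  have hw' : ∀ μ ∈ s', ContDiff ℝ 2 (w μ) := fun μ hμ => hw μ (hsub μ hμ)
  have wper' : ∀ μ ∈ s', ∀ x, w μ (x + a) = w μ x := fun μ hμ => wper μ (hsub μ hμ)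
  have eq' : ∀ μ ∈ s', ∀ x, deriv (deriv (w μ)) x = (μ - F x) * w μ x :=
    fun μ hμ => eq μ (hsub μ hμ)
  have hlt : ∀ μ ∈ s', μ < M := by
    intro μ hμ
    by_contra hge
    push Not at hge
    obtain ⟨x, hx⟩ := hne μ hμ
    exact hx (nonosc ha (hw' μ hμ).continuous (wper' μ hμ) (c := fun x => μ - F x)
      (fun x => by linarith [hM x]) (eq' μ hμ) x)
  have hper0 : ∀ k x, It s' w M k (x + a) = It s' w M k x := by
    intro k x
    unfold It
    refine Finset.sum_congr rfl fun μ hμ => ?_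
    rw [wper' μ hμ]
  have hm2 : 2 ≤ m := h.two_le ha (hper0 0)
  have hmpos : (0 : ℝ) < m := by exact_mod_cast (by omega : 0 < m)
  have hne' : s'.Nonempty := by
    by_contra hemp
    rw [Finset.not_nonempty_iff_eq_empty] at hemp
    obtain ⟨t, _, _, hs⟩ := h
    have := hs 0 (by omega)
    rw [hemp] at this
    simp [It] at this
  set top : ℝ := s'.min' hne' with htop
  have htopm : top ∈ s' := s'.min'_mem hne'
  set ρ : ℝ → ℝ := fun μ => (M - μ) / (M - top) with hρ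
  have hMt : 0 < M - top := by linarith [hlt top htopm]
  have hρ1 : ρ top = 1 := by simp only [hρ]; field_simp
  have hρlt : ∀ μ ∈ s', μ ≠ top → 0 ≤ ρ μ ∧ ρ μ < 1 := by
    intro μ hμ hne
    have h1 : top < μ := lt_of_le_of_ne (s'.min'_le μ hμ) (Ne.symm hne)
    refine ⟨div_nonneg (by linarith [hlt μ hμ]) hMt.le, ?_⟩
    rw [div_lt_one hMt]
    linarith
  -- convergence
  have conv : ∀ (v : ℝ → ℝ → ℝ), (∀ μ ∈ s', Continuous (v μ)) → ∀ (X : ℕ → ℝ) (n : ℕ → ℕ) (x : ℝ),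
      Tendsto X atTop (𝓝 x) → Tendsto n atTop atTop →
      (∀ k, ∑ μ ∈ s', (M - μ) ^ (n k) * v μ (X k) = 0) → v top x = 0 := by
    intro v hv X n x hX hn h0
    have h1 : Tendsto (fun k => ∑ μ ∈ s', (ρ μ) ^ (n k) * v μ (X k)) atTop
        (𝓝 (∑ μ ∈ s', if μ = top then v μ x else 0)) := by
      refine tendsto_finsetSum _ fun μ hμ => ?_
      have hvx : Tendsto (fun k => v μ (X k)) atTop (𝓝 (v μ x)) :=
        ((hv μ hμ).tendsto x).comp hX
      split_ifs with hc
      · rw [hc, hρ1]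
        simpa [hc] using hvx
      · have hr := hρlt μ hμ hc
        have hp0 : Tendsto (fun k => (ρ μ) ^ (n k)) atTop (𝓝 0) :=
          (tendsto_pow_atTop_nhds_zero_of_lt_one hr.1 hr.2).comp hn
        simpa using hp0.mul hvx
    have h2 : ∀ k, ∑ μ ∈ s', (ρ μ) ^ (n k) * v μ (X k) = 0 := by
      intro k
      have : ∑ μ ∈ s', (ρ μ) ^ (n k) * v μ (X k) =
          (∑ μ ∈ s', (M - μ) ^ (n k) * v μ (X k)) / (M - top) ^ (n k) := by
        rw [Finset.sum_div]
        refine Finset.sum_congr rfl fun μ _ => ?_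
        simp only [hρ]
        rw [div_pow]
        ring
      rw [this, h0 k, zero_div]
    simp only [h2] at h1
    have h3 := tendsto_nhds_unique h1 tendsto_const_nhds
    rw [Finset.sum_ite_eq' s' top] at h3
    simpa [htopm] using h3
  -- close zeros for every k
  have hz : ∀ k, ∃ p : ℝ × ℝ × ℝ, p.1 ∈ Icc 0 a ∧ p.1 < p.2.1 ∧ p.2.1 ≤ p.1 + a / m ∧
      It s' w M k p.1 = 0 ∧ It s' w M k p.2.1 = 0 ∧ p.1 < p.2.2 ∧ p.2.2 < p.2.1 ∧
      deriv (It s' w M k) p.2.2 = 0 := by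
    intro k
    have hk := It_alt ha Fper hw' wper' eq' hM h k
    obtain ⟨z, z', b1, b2, b3, b4, b5⟩ := hk.close_zeros (It_contDiff hw' M k).continuous ha
      (hper0 k)
    obtain ⟨ξ, hξ, hξ0⟩ := exists_deriv_eq_zero b2 (It_contDiff hw' M k).continuous.continuousOn
      (by rw [b4, b5])
    exact ⟨(z, z', ξ), b1, b2, b3, b4, b5, hξ.1, hξ.2, hξ0⟩
  choose p hp using hz
  have hcomp : IsCompact (Icc (0 : ℝ) a ×ˢ Icc (0 : ℝ) (a + a / m)) :=
    isCompact_Icc.prod isCompact_Icc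
  obtain ⟨q, hq, n, hn, hlim⟩ := hcomp.tendsto_subseq (x := fun k => ((p k).1, (p k).2.1)) (by
    intro k
    have := hp k
    exact ⟨this.1, ⟨by linarith [this.1.1, this.2.1], by linarith [this.1.2, this.2.2.1]⟩⟩)
  have l1 : Tendsto (fun k => (p (n k)).1) atTop (𝓝 q.1) :=
    (continuous_fst.tendsto q).comp hlim
  have l2 : Tendsto (fun k => (p (n k)).2.1) atTop (𝓝 q.2) :=
    (continuous_snd.tendsto q).comp hlim
  have z1 : w top q.1 = 0 :=
    conv w (fun μ hμ => (hw' μ hμ).continuous) _ n q.1 l1 hn.tendsto_atTop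
      (fun k => (hp (n k)).2.2.2.1)
  have z2 : w top q.2 = 0 :=
    conv w (fun μ hμ => (hw' μ hμ).continuous) _ n q.2 l2 hn.tendsto_atTop
      (fun k => (hp (n k)).2.2.2.2.1)
  have hle1 : q.1 ≤ q.2 := le_of_tendsto_of_tendsto' l1 l2 fun k => (hp (n k)).2.1.le
  have hle2 : q.2 ≤ q.1 + a / m :=
    le_of_tendsto_of_tendsto' l2 (l1.add_const _) fun k => (hp (n k)).2.2.1
  have hcb : ∀ x, |top - F x| ≤ |top| + K := fun x => by
    have := abs_sub top (F x)
    linarith [hK x]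
  obtain ⟨y, hy⟩ := hne top htopm
  have hpt : ∀ x, F x - top ≤ κ ^ 2 := hP top (hsub top htopm) ⟨y, hy⟩
  rcases hle1.eq_or_lt with he | hlt'
  · exfalso
    have l3 : Tendsto (fun k => (p (n k)).2.2) atTop (𝓝 q.1) := by
      refine tendsto_of_tendsto_of_tendsto_of_le_of_le l1 (by rw [he]; exact l2) ?_ ?_
      · intro k; exact (hp (n k)).2.2.2.2.2.1.le
      · intro k; exact (hp (n k)).2.2.2.2.2.2.1.le
    have z3 : deriv (w top) q.1 = 0 := by
      refine conv (fun μ => deriv (w μ)) (fun μ hμ => (contDiff_deriv (hw' μ hμ)).continuous) _ n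
        q.1 l3 hn.tendsto_atTop (fun k => ?_)
      have := (hp (n k)).2.2.2.2.2.2.2
      rw [It_deriv hw'] at this
      exact this
    exact hy (ode_zero (hw' top htopm) hcb (eq' top htopm) z1 z3 y)
  · by_contra hcon
    push Not at hcon
    have hgap : κ * (q.2 - q.1) < Real.pi := by
      have h1 : q.2 - q.1 ≤ a / m := by linarith
      calc κ * (q.2 - q.1) ≤ κ * (a / m) := by gcongr
        _ = a * κ / m := by ring
        _ < Real.pi := by rw [div_lt_iff₀ hmpos]; linarith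
    have hz := sturm_gap hκ (hw' top htopm) (p := fun x => F x - top)
      (by intro x; rw [eq' top htopm x]; ring) hpt hlt' z1 z2 hgap
    -- w vanishes on an interval
    have hmid : (q.1 + q.2) / 2 ∈ Ioo q.1 q.2 := ⟨by linarith, by linarith⟩
    have hev : w top =ᶠ[𝓝 ((q.1 + q.2) / 2)] fun _ => 0 := by
      filter_upwards [Ioo_mem_nhds hmid.1 hmid.2] with x hx
      exact hz x ⟨hx.1.le, hx.2.le⟩
    have h0 : w top ((q.1 + q.2) / 2) = 0 := hz _ ⟨hmid.1.le, hmid.2.le⟩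
    have h1 : deriv (w top) ((q.1 + q.2) / 2) = 0 := by
      rw [hev.deriv_eq]; simp
    exact hy (ode_zero (hw' top htopm) hcb (eq' top htopm) h0 h1 y)

end W729.YL
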