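import Pool.Agent.W729.YL.Grid

/-!
The covering argument.
-/

namespace W729.YL

open Set Filter Topology ContDiff MeasureTheory

variable {φ : ℝ → ℝ → ℝ} {a b lam : ℝ} {f h : ℝ → ℝ}

/-- the open sets of offsets -/
def Off (δ1 δ2 : ℝ) (g : Fin 3) : Set (ℝ × ℝ) :=
  Ioo (-((2 * (g : ℕ) + 3 : ℝ) / 8 * δ1)) (-((2 * (g : ℕ) + 1 : ℝ) / 8 * δ1)) ×ˢ
    Ioo (-((2 * (g : ℕ) + 3 : ℝ) / 8 * δ2)) (-((2 * (g : ℕ) + 1 : ℝ) / 8 * δ2))

lemma off_diff {δ t s x : ℝ} (hδ : 0 < δ) {g g' : Fin 3}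
    (ht : t ∈ Ioo (-((2 * (g : ℕ) + 3 : ℝ) / 8 * δ)) (-((2 * (g : ℕ) + 1 : ℝ) / 8 * δ)))
    (hs : s ∈ Ioo (-((2 * (g' : ℕ) + 3 : ℝ) / 8 * δ)) (-((2 * (g' : ℕ) + 1 : ℝ) / 8 * δ)))
    (h1 : ∃ k : ℤ, x - t = k * δ) (h2 : ∃ k : ℤ, x - s = k * δ) : g = g' := by
  obtain ⟨k, hk⟩ := h1
  obtain ⟨k', hk'⟩ := h2
  have hd : t - s = ((k' - k : ℤ) : ℝ) * δ := by push_cast; linarith
  have hg2 : ((g : ℕ) : ℝ) ≤ 2 := by have := g.2; exact_mod_cast (by omega : (g : ℕ) ≤ 2)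
  have hg2' : ((g' : ℕ) : ℝ) ≤ 2 := by have := g'.2; exact_mod_cast (by omega : (g' : ℕ) ≤ 2)
  have hg0 : (0 : ℝ) ≤ ((g : ℕ) : ℝ) := Nat.cast_nonneg _
  have hg0' : (0 : ℝ) ≤ ((g' : ℕ) : ℝ) := Nat.cast_nonneg _
  have u1 : t - s < δ := by nlinarith [ht.2, hs.1]
  have u2 : -δ < t - s := by nlinarith [ht.1, hs.2]
  have hz : k' - k = 0 := by
    rw [hd] at u1 u2
    have v1 : ((k' - k : ℤ) : ℝ) < 1 := by
      by_contra hcon
      push Not at hcon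
      nlinarith
    have v2 : (-1 : ℝ) < ((k' - k : ℤ) : ℝ) := by
      by_contra hcon
      push Not at hcon
      nlinarith
    have v1' : k' - k < 1 := by exact_mod_cast v1
    have v2' : -1 < k' - k := by exact_mod_cast v2
    omega
  rw [hz] at hd
  have hts : t = s := by simp at hd; linarith
  rw [← hts] at hs
  by_contra hne
  have hne' : (g : ℕ) ≠ (g' : ℕ) := fun h => hne (Fin.ext h)
  rcases lt_or_gt_of_ne hne' with hlt | hgt
  · have : ((g : ℕ) : ℝ) + 1 ≤ (g' : ℕ) := by exact_mod_cast hlt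
    nlinarith [ht.1, hs.2]
  · have : ((g' : ℕ) : ℝ) + 1 ≤ (g : ℕ) := by exact_mod_cast hgt
    nlinarith [ht.2, hs.1]

lemma good_grid {P Q : Fin 3 → Prop} (hP : ∀ g g', P g → P g' → g = g')
    (hQ : ∀ g g', Q g → Q g' → g = g') : ∃ g, ¬ P g ∧ ¬ Q g := by
  by_contra hcon
  push Not at hcon
  have key : ∀ g, P g ∨ Q g := fun g => by
    by_cases hp : P g
    · exact Or.inl hp
    · exact Or.inr (hcon g hp)
  rcases key 0 with h0 | h0 <;> rcases key 1 with h1 | h1 <;> rcases key 2 with h2 | h2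
  · exact absurd (hP _ _ h0 h1) (by decide)
  · exact absurd (hP _ _ h0 h1) (by decide)
  · exact absurd (hP _ _ h0 h2) (by decide)
  · exact absurd (hQ _ _ h1 h2) (by decide)
  · exact absurd (hP _ _ h1 h2) (by decide)
  · exact absurd (hQ _ _ h0 h2) (by decide)
  · exact absurd (hQ _ _ h0 h1) (by decide)
  · exact absurd (hQ _ _ h0 h1) (by decide)

/-- location of a point in the grid -/
lemma locate {A x d : ℝ} (hA : 0 < A) {N : ℕ} (hN : 2 ≤ N) (hx0 : 0 ≤ x) (hx1 : x ≤ A / 2)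
    (hd0 : d < 0) (hd1 : -(A / N) < d) (hnk : ¬ ∃ k : ℤ, x - d = k * (A / N)) :
    ∃ i < N, x ∈ Ioo (d + (i : ℝ) * (A / N)) (d + ((i + 1 : ℕ) : ℝ) * (A / N)) := by
  have hN2 : (2 : ℝ) ≤ N := by exact_mod_cast hN
  have hN0 : (0 : ℝ) < N := by linarith
  have hδ : 0 < A / N := div_pos hA hN0
  have hpos : 0 < x - d := by linarith
  set i : ℕ := ⌊(x - d) / (A / N)⌋₊ with hi
  have h1 : (i : ℝ) ≤ (x - d) / (A / N) := Nat.floor_le (div_pos hpos hδ).le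
  have h2 : (x - d) / (A / N) < i + 1 := Nat.lt_floor_add_one _
  rw [le_div_iff₀ hδ] at h1
  rw [div_lt_iff₀ hδ] at h2
  refine ⟨i, ?_, ?_, ?_⟩
  · have h3 : x - d < N * (A / N) := by
      have e : (N : ℝ) * (A / N) = A := by field_simp
      have e2 : A / N ≤ A / 2 := by gcongr
      rw [e]
      linarith
    have h4 : (i : ℝ) * (A / N) < N * (A / N) := lt_of_le_of_lt h1 h3
    have h5 : (i : ℝ) < N := lt_of_mul_lt_mul_right h4 hδ.le
    exact_mod_cast h5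
  · rcases h1.eq_or_lt with h | h
    · exact absurd ⟨(i : ℤ), by push_cast; linarith⟩ hnk
    · linarith
  · push_cast
    linarith

/-- the rectangle in the complex plane -/
def Rc (x0 x1 y0 y1 : ℝ) : Set ℂ := {z | z.re ∈ Icc x0 x1 ∧ z.im ∈ Icc y0 y1}

lemma Rc_diam {x0 x1 y0 y1 : ℝ} :
    Metric.ediam (Rc x0 x1 y0 y1) ≤ ENNReal.ofReal ((x1 - x0) + (y1 - y0)) := by
  apply Metric.ediam_le
  intro z hz w hw
  rw [edist_dist]
  apply ENNReal.ofReal_le_ofReal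
  rw [Complex.dist_eq]
  refine le_trans (Complex.norm_le_abs_re_add_abs_im _) ?_
  have h1 : |(z - w).re| ≤ x1 - x0 := by
    rw [Complex.sub_re, abs_le]
    exact ⟨by linarith [hz.1.1, hw.1.2], by linarith [hz.1.2, hw.1.1]⟩
  have h2 : |(z - w).im| ≤ y1 - y0 := by
    rw [Complex.sub_im, abs_le]
    exact ⟨by linarith [hz.2.1, hw.2.2], by linarith [hz.2.2, hw.2.1]⟩
  linarith

open Classical in
/-- **Length bound** from the sign change bounds. -/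
theorem length_bound (ha : 0 < a) (hb : 0 < b) (hf : ContDiff ℝ ∞ f) (hh : ContDiff ℝ ∞ h)
    (pf : ∀ x, f (x + a) = f x) (ph : ∀ y, h (y + b) = h y) (hl : 0 < lam)
    (hpos : ∀ x y, 0 < f x + h y) (H : Sol a b f h lam φ) (hne : φ ≠ 0) {κ : ℝ} (hκ : 0 < κ)
    (hκ2 : ∀ x y, lam * (f x + h y) ≤ κ ^ 2) {K1 K2 : ℝ} (hK1 : 0 ≤ K1) (hK2 : 0 ≤ K2)
    (hh1 : ∀ y m, Alt (fun x => φ x y) a m → (m : ℝ) ≤ K1)
    (hh2 : ∀ x m, Alt (fun y => φ x y) b m → (m : ℝ) ≤ K2) :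
    μH[1] {z : ℂ | z.re ∈ Icc 0 (a / 2) ∧ z.im ∈ Icc 0 (b / 2) ∧ φ z.re z.im = 0} ≤
      ENNReal.ofReal (12 * (K1 + K2) * (a + b)) := by
  -- number of intervals at stage `n` is `n + 2`
  have hN : ∀ n : ℕ, (0 : ℝ) < ((n + 2 : ℕ) : ℝ) := fun n => by positivity
  have hoff : ∀ (n : ℕ) (g : Fin 3), ∃ p ∈ Off (a / ((n + 2 : ℕ) : ℝ)) (b / ((n + 2 : ℕ) : ℝ)) g,
      ∀ i j : ℕ, φ (p.1 + i * (a / ((n + 2 : ℕ) : ℝ))) (p.2 + j * (b / ((n + 2 : ℕ) : ℝ))) ≠ 0 := by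
    intro n g
    have d1 : 0 < a / ((n + 2 : ℕ) : ℝ) := div_pos ha (hN n)
    have d2 : 0 < b / ((n + 2 : ℕ) : ℝ) := div_pos hb (hN n)
    refine offset ha hb hf hh pf ph hl H hne _ _ (isOpen_Ioo.prod isOpen_Ioo) ?_
    refine Set.Nonempty.prod (nonempty_Ioo.2 ?_) (nonempty_Ioo.2 ?_) <;> nlinarith
  choose p hpO hpg using hoff
  set bad : (n : ℕ) → Fin 3 → ℕ × ℕ → Prop := fun n g ij =>
    ∃ x ∈ Ioo ((p n g).1 + ij.1 * (a / ((n + 2 : ℕ) : ℝ)))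
        ((p n g).1 + (ij.1 + 1 : ℕ) * (a / ((n + 2 : ℕ) : ℝ))),
      ∃ y ∈ Ioo ((p n g).2 + ij.2 * (b / ((n + 2 : ℕ) : ℝ)))
        ((p n g).2 + (ij.2 + 1 : ℕ) * (b / ((n + 2 : ℕ) : ℝ))), φ x y = 0 with hbad
  set t : (n : ℕ) → (Fin 3 × (Fin (n + 2) × Fin (n + 2))) → Set ℂ := fun n x =>
    if bad n x.1 ((x.2.1 : ℕ), (x.2.2 : ℕ)) then
      Rc ((p n x.1).1 + ((x.2.1 : ℕ) : ℝ) * (a / ((n + 2 : ℕ) : ℝ)))
        ((p n x.1).1 + (((x.2.1 : ℕ) + 1 : ℕ) : ℝ) * (a / ((n + 2 : ℕ) : ℝ)))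
        ((p n x.1).2 + ((x.2.2 : ℕ) : ℝ) * (b / ((n + 2 : ℕ) : ℝ)))
        ((p n x.1).2 + (((x.2.2 : ℕ) + 1 : ℕ) : ℝ) * (b / ((n + 2 : ℕ) : ℝ)))
    else ∅ with ht
  have htd : ∀ n x, Metric.ediam (t n x) ≤
      if bad n x.1 ((x.2.1 : ℕ), (x.2.2 : ℕ)) then
        ENNReal.ofReal ((a + b) / ((n + 2 : ℕ) : ℝ)) else 0 := by
    intro n x
    simp only [ht]
    split_ifs with hb'
    · refine le_trans Rc_diam (ENNReal.ofReal_le_ofReal (le_of_eq ?_))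
      push_cast
      ring
    · simp
  have htd' : ∀ n x, Metric.ediam (t n x) ≤ ENNReal.ofReal ((a + b) / ((n + 2 : ℕ) : ℝ)) := by
    intro n x
    refine le_trans (htd n x) ?_
    split_ifs
    · exact le_rfl
    · exact zero_le
  have hr : Tendsto (fun n : ℕ => ENNReal.ofReal ((a + b) / ((n + 2 : ℕ) : ℝ))) atTop (𝓝 0) := by
    rw [← ENNReal.ofReal_zero]
    apply (ENNReal.continuous_ofReal.tendsto 0).comp
    have h1 : Tendsto (fun n : ℕ => (a + b) / (n : ℝ)) atTop (𝓝 0) :=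
      tendsto_const_div_atTop_nhds_zero_nat (a + b)
    exact h1.comp (tendsto_add_atTop_nat 2)
  have hcov : ∀ n, {z : ℂ | z.re ∈ Icc 0 (a / 2) ∧ z.im ∈ Icc 0 (b / 2) ∧ φ z.re z.im = 0} ⊆
      ⋃ x, t n x := by
    rintro n z ⟨hz1, hz2, hz0⟩
    have d1 : 0 < a / ((n + 2 : ℕ) : ℝ) := div_pos ha (hN n)
    have d2 : 0 < b / ((n + 2 : ℕ) : ℝ) := div_pos hb (hN n)
    obtain ⟨g, hgP, hgQ⟩ := good_grid
      (P := fun g => ∃ k : ℤ, z.re - (p n g).1 = k * (a / ((n + 2 : ℕ) : ℝ)))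
      (Q := fun g => ∃ k : ℤ, z.im - (p n g).2 = k * (b / ((n + 2 : ℕ) : ℝ)))
      (fun g g' h1 h2 => off_diff d1 (hpO n g).1 (hpO n g').1 h1 h2)
      (fun g g' h1 h2 => off_diff d2 (hpO n g).2 (hpO n g').2 h1 h2)
    have hg2 : ((g : ℕ) : ℝ) ≤ 2 := by have := g.2; exact_mod_cast (by omega : (g : ℕ) ≤ 2)
    have hg0 : (0 : ℝ) ≤ ((g : ℕ) : ℝ) := Nat.cast_nonneg _
    obtain ⟨i, hi, hxi⟩ := locate ha (N := n + 2) (by omega) hz1.1 hz1.2
      (by have := (hpO n g).1.2; nlinarith) (by have := (hpO n g).1.1; nlinarith) hgP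
    obtain ⟨j, hj, hyj⟩ := locate hb (N := n + 2) (by omega) hz2.1 hz2.2
      (by have := (hpO n g).2.2; nlinarith) (by have := (hpO n g).2.1; nlinarith) hgQ
    rw [Set.mem_iUnion]
    refine ⟨(g, (⟨i, hi⟩, ⟨j, hj⟩)), ?_⟩
    have hB : bad n g (i, j) := ⟨z.re, hxi, z.im, hyj, hz0⟩
    simp only [ht]
    rw [if_pos hB]
    exact ⟨⟨hxi.1.le, hxi.2.le⟩, ⟨hyj.1.le, hyj.2.le⟩⟩
  have hmain := Measure.hausdorffMeasure_le_liminf_sum 1
    {z : ℂ | z.re ∈ Icc 0 (a / 2) ∧ z.im ∈ Icc 0 (b / 2) ∧ φ z.re z.im = 0}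
    (fun n : ℕ => ENNReal.ofReal ((a + b) / ((n + 2 : ℕ) : ℝ))) hr t
    (Eventually.of_forall fun n x => htd' n x) (Eventually.of_forall hcov)
  refine le_trans hmain ?_
  -- eventually the mesh is small
  have hsm : ∀ᶠ n : ℕ in atTop, κ * (a / ((n + 2 : ℕ) : ℝ)) < Real.pi := by
    have h1 : Tendsto (fun n : ℕ => (κ * a) / (n : ℝ)) atTop (𝓝 0) :=
      tendsto_const_div_atTop_nhds_zero_nat (κ * a)
    have h2 := h1.comp (tendsto_add_atTop_nat 2)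
    filter_upwards [h2.eventually_lt_const Real.pi_pos] with n hn
    have e : κ * (a / ((n + 2 : ℕ) : ℝ)) = (κ * a) / ((n + 2 : ℕ) : ℝ) := by ring
    rw [e]
    exact hn
  refine Filter.liminf_le_of_frequently_le' (Eventually.frequently ?_)
  filter_upwards [hsm] with n hn
  simp only [ENNReal.rpow_one]
  calc ∑ x, Metric.ediam (t n x)
      ≤ ∑ x : Fin 3 × (Fin (n + 2) × Fin (n + 2)),
        (if bad n x.1 ((x.2.1 : ℕ), (x.2.2 : ℕ)) then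
          ENNReal.ofReal ((a + b) / ((n + 2 : ℕ) : ℝ)) else 0) :=
        Finset.sum_le_sum fun x _ => htd n x
    _ = ∑ g : Fin 3, ∑ ij ∈ (Finset.range (n + 2) ×ˢ Finset.range (n + 2)),
        (if bad n g ij then ENNReal.ofReal ((a + b) / ((n + 2 : ℕ) : ℝ)) else 0) := by
        rw [Fintype.sum_prod_type]
        refine Finset.sum_congr rfl fun g _ => ?_
        rw [Fintype.sum_prod_type, Finset.sum_product]
        rw [← Fin.sum_univ_eq_sum_range (fun i => ∑ j ∈ Finset.range (n + 2),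
          (if bad n g (i, j) then ENNReal.ofReal ((a + b) / ((n + 2 : ℕ) : ℝ)) else 0)) (n + 2)]
        refine Finset.sum_congr rfl fun i _ => ?_
        rw [← Fin.sum_univ_eq_sum_range (fun j =>
          (if bad n g ((i : ℕ), j) then ENNReal.ofReal ((a + b) / ((n + 2 : ℕ) : ℝ)) else 0))
          (n + 2)]
    _ ≤ ∑ g : Fin 3, ENNReal.ofReal (4 * (K1 + K2) * (a + b)) := by
        refine Finset.sum_le_sum fun g _ => ?_
        rw [← Finset.sum_filter, Finset.sum_const, nsmul_eq_mul]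
        have hcount := grid_count ha hb hf hh pf ph hl hpos H hne hκ hκ2 hK1 hK2 hh1 hh2
          (N := n + 2) (by omega) hn (hpg n g)
        rw [← ENNReal.ofReal_natCast, ← ENNReal.ofReal_mul (Nat.cast_nonneg _)]
        apply ENNReal.ofReal_le_ofReal
        have hNn := hN n
        calc _ ≤ (4 * ((n + 2 : ℕ) : ℝ) * (K1 + K2)) * ((a + b) / ((n + 2 : ℕ) : ℝ)) := by
              have : 0 ≤ (a + b) / ((n + 2 : ℕ) : ℝ) := by positivity
              exact mul_le_mul_of_nonneg_right hcount this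
          _ = 4 * (K1 + K2) * (a + b) := by field_simp
    _ = ENNReal.ofReal (12 * (K1 + K2) * (a + b)) := by
        rw [Finset.sum_const, Finset.card_univ, Fintype.card_fin, nsmul_eq_mul,
          ← ENNReal.ofReal_natCast, ← ENNReal.ofReal_mul (Nat.cast_nonneg _)]
        congr 1
        push_cast
        ring

end W729.YL
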