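import Pool.Agent.W729.YL.Intg

/-!
Every eigenfunction is a finite sum of joint eigenfunctions.
-/

namespace W729.YL

open Set Filter Topology ContDiff MeasureTheory intervalIntegral

variable {φ ψ : ℝ → ℝ → ℝ} {a b lam : ℝ} {f h : ℝ → ℝ}

lemma ibp_x (hφ : Sm φ) (hψ : Sm ψ) (pφ : ∀ x y, φ (x + a) y = φ x y)
    (pψ : ∀ x y, ψ (x + a) y = ψ x y) (y : ℝ) :
    ∫ x in (0 : ℝ)..a, Dx φ x y * ψ x y = -∫ x in (0 : ℝ)..a, φ x y * Dx ψ x y := by
  have := intervalIntegral.integral_mul_deriv_eq_deriv_mul (a := 0) (b := a)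
    (u := fun x => φ x y) (v := fun x => ψ x y) (u' := fun x => Dx φ x y) (v' := fun x => Dx ψ x y)
    (fun x _ => hφ.hx x y) (fun x _ => hψ.hx x y)
    ((hφ.dx.cn.cx y).intervalIntegrable _ _) ((hψ.dx.cn.cx y).intervalIntegrable _ _)
  have e1 := pφ 0 y
  have e2 := pψ 0 y
  rw [zero_add] at e1 e2
  rw [e1, e2] at this
  linarith

lemma ibp_y (hφ : Sm φ) (hψ : Sm ψ) (pφ : ∀ x y, φ x (y + b) = φ x y)
    (pψ : ∀ x y, ψ x (y + b) = ψ x y) (x : ℝ) :
    ∫ y in (0 : ℝ)..b, Dy φ x y * ψ x y = -∫ y in (0 : ℝ)..b, φ x y * Dy ψ x y := by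
  have := intervalIntegral.integral_mul_deriv_eq_deriv_mul (a := 0) (b := b)
    (u := fun y => φ x y) (v := fun y => ψ x y) (u' := fun y => Dy φ x y) (v' := fun y => Dy ψ x y)
    (fun y _ => hφ.hy x y) (fun y _ => hψ.hy x y)
    ((hφ.dy.cn.cy x).intervalIntegrable _ _) ((hψ.dy.cn.cy x).intervalIntegrable _ _)
  have e1 := pφ x 0
  have e2 := pψ x 0
  rw [zero_add] at e1 e2
  rw [e1, e2] at this
  linarith

/-- the inner product -/
noncomputable def IP (a b : ℝ) (φ ψ : ℝ → ℝ → ℝ) : ℝ :=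
  ∫ y in (0 : ℝ)..b, ∫ x in (0 : ℝ)..a, φ x y * ψ x y

lemma IP_comm (φ ψ : ℝ → ℝ → ℝ) : IP a b φ ψ = IP a b ψ φ := by
  unfold IP
  simp_rw [mul_comm]

lemma IP_add {χ : ℝ → ℝ → ℝ} (hφ : Cn φ) (hψ : Cn ψ) (hχ : Cn χ) :
    IP a b (φ + ψ) χ = IP a b φ χ + IP a b ψ χ := by
  unfold IP
  rw [← intervalIntegral.integral_add]
  · congr 1
    funext y
    rw [← intervalIntegral.integral_add]
    · congr 1
      funext x
      simp only [Pi.add_apply]
      ring
    · exact ((hφ.mul hχ).cx y).intervalIntegrable _ _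
    · exact ((hψ.mul hχ).cx y).intervalIntegrable _ _
  · exact ((hφ.mul hχ).intx _ _).intervalIntegrable _ _
  · exact ((hψ.mul hχ).intx _ _).intervalIntegrable _ _

lemma IP_smul (c : ℝ) (φ ψ : ℝ → ℝ → ℝ) : IP a b (c • φ) ψ = c * IP a b φ ψ := by
  unfold IP
  rw [← intervalIntegral.integral_const_mul]
  congr 1
  funext y
  rw [← intervalIntegral.integral_const_mul]
  congr 1
  funext x
  simp only [Pi.smul_apply, smul_eq_mul]
  ring

lemma IP_nonneg (ha : 0 < a) (hb : 0 < b) (φ : ℝ → ℝ → ℝ) : 0 ≤ IP a b φ φ := by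
  unfold IP
  apply intervalIntegral.integral_nonneg hb.le
  intro y _
  apply intervalIntegral.integral_nonneg ha.le
  intro x _
  exact mul_self_nonneg _

lemma IP_def (ha : 0 < a) (hb : 0 < b) (hφ : Cn φ) (px : ∀ x y, φ (x + a) y = φ x y)
    (py : ∀ x y, φ x (y + b) = φ x y) (h0 : IP a b φ φ = 0) : φ = 0 := by
  by_contra hne
  have : ∃ x y, φ x y ≠ 0 := by
    by_contra hcon
    push Not at hcon
    exact hne (funext fun x => funext fun y => hcon x y)
  obtain ⟨x1, y1, h1⟩ := this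
  obtain ⟨x0, hx0, e1⟩ := (show Function.Periodic (fun x => φ x y1) a from
    fun x => px x y1).exists_mem_Ico₀ ha x1
  obtain ⟨y0, hy0, e2⟩ := (show Function.Periodic (fun y => φ x0 y) b from
    fun y => py x0 y).exists_mem_Ico₀ hb y1
  change φ x1 y1 = φ x0 y1 at e1
  change φ x0 y1 = φ x0 y0 at e2
  rw [e1, e2] at h1
  have hin : 0 < ∫ x in (0 : ℝ)..a, φ x y0 * φ x y0 := by
    apply intervalIntegral.integral_pos ha
    · exact ((hφ.mul hφ).cx y0).continuousOn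
    · intro x _; exact mul_self_nonneg _
    · exact ⟨x0, ⟨hx0.1, hx0.2.le⟩, mul_self_pos.2 h1⟩
  have hout : 0 < IP a b φ φ := by
    unfold IP
    apply intervalIntegral.integral_pos hb
    · exact ((hφ.mul hφ).intx _ _).continuousOn
    · intro y _
      apply intervalIntegral.integral_nonneg ha.le
      intro x _
      exact mul_self_nonneg _
    · exact ⟨y0, ⟨hy0.1, hy0.2.le⟩, hin⟩
  rw [h0] at hout
  exact lt_irrefl _ hout

lemma IP_aop (hf : ContDiff ℝ ∞ f) (H : Sol a b f h lam φ) (H' : Sol a b f h lam ψ) :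
    IP a b (Aop f lam φ) ψ = IP a b φ (Aop f lam ψ) := by
  have key : ∀ (φ ψ : ℝ → ℝ → ℝ), Sol a b f h lam φ → Sol a b f h lam ψ → ∀ y,
      ∫ x in (0 : ℝ)..a, Aop f lam φ x y * ψ x y =
      -(∫ x in (0 : ℝ)..a, Dx φ x y * Dx ψ x y) + ∫ x in (0 : ℝ)..a, lam * (f x * (φ x y * ψ x y))
      := by
    intro φ ψ H H' y
    have e := ibp_x (a := a) H.sm.dx H'.sm (dx_per H.perx) H'.perx y
    rw [← e, ← intervalIntegral.integral_add]
    · congr 1
      funext x
      unfold Aop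
      ring
    · exact ((H.sm.dx.dx.cn.mul H'.sm.cn).cx y).intervalIntegrable _ _
    · exact (continuous_const.mul (hf.continuous.mul
        ((H.sm.cn.mul H'.sm.cn).cx y))).intervalIntegrable _ _
  unfold IP
  congr 1
  funext y
  rw [key φ ψ H H' y]
  have : ∫ x in (0 : ℝ)..a, φ x y * Aop f lam ψ x y = ∫ x in (0 : ℝ)..a, Aop f lam ψ x y * φ x y := by
    simp_rw [mul_comm]
  rw [this, key ψ φ H' H y]
  congr 2
  · simp_rw [mul_comm]
  · congr 1
    funext x
    ring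

lemma energy (hf : Continuous f) (hh : Continuous h) (H : Sol a b f h lam φ) :
    (∫ y in (0 : ℝ)..b, ∫ x in (0 : ℝ)..a, Dx φ x y ^ 2) +
      (∫ y in (0 : ℝ)..b, ∫ x in (0 : ℝ)..a, Dy φ x y ^ 2) =
      ∫ y in (0 : ℝ)..b, ∫ x in (0 : ℝ)..a, lam * (f x + h y) * φ x y ^ 2 := by
  have hs := H.sm
  have cV : Cn (fun x y => lam * (f x + h y) * φ x y ^ 2) := by
    unfold Cn
    have := hs.cn
    unfold Cn at this
    fun_prop
  have c1 : Cn (fun x y => Dx (Dx φ) x y * φ x y) := hs.dx.dx.cn.mul hs.cn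
  have c2 : Cn (fun x y => Dy (Dy φ) x y * φ x y) := hs.dy.dy.cn.mul hs.cn
  have e1 : ∫ y in (0 : ℝ)..b, ∫ x in (0 : ℝ)..a, Dx (Dx φ) x y * φ x y =
      -∫ y in (0 : ℝ)..b, ∫ x in (0 : ℝ)..a, Dx φ x y ^ 2 := by
    rw [← intervalIntegral.integral_neg]
    congr 1
    funext y
    rw [ibp_x (a := a) hs.dx hs (dx_per H.perx) H.perx y]
    simp_rw [pow_two]
  have e2 : ∫ y in (0 : ℝ)..b, ∫ x in (0 : ℝ)..a, Dy (Dy φ) x y * φ x y =
      -∫ y in (0 : ℝ)..b, ∫ x in (0 : ℝ)..a, Dy φ x y ^ 2 := by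
    rw [c2.swap, hs.dy.cn.sq.swap, ← intervalIntegral.integral_neg]
    congr 1
    funext x
    rw [ibp_y (b := b) hs.dy hs (dy_per H.pery) H.pery x]
    simp_rw [pow_two]
  have e3 : ∫ y in (0 : ℝ)..b, ∫ x in (0 : ℝ)..a, (Dx (Dx φ) x y * φ x y + Dy (Dy φ) x y * φ x y +
      lam * (f x + h y) * φ x y ^ 2) = 0 := by
    have : ∀ x y, Dx (Dx φ) x y * φ x y + Dy (Dy φ) x y * φ x y +
      lam * (f x + h y) * φ x y ^ 2 = 0 := by
      intro x y
      have := H.eqn' x y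
      linear_combination (φ x y) * this
    simp_rw [this]
    simp
  have e4 : ∫ y in (0 : ℝ)..b, ∫ x in (0 : ℝ)..a, (Dx (Dx φ) x y * φ x y + Dy (Dy φ) x y * φ x y +
      lam * (f x + h y) * φ x y ^ 2) =
      (∫ y in (0 : ℝ)..b, ∫ x in (0 : ℝ)..a, Dx (Dx φ) x y * φ x y) +
      (∫ y in (0 : ℝ)..b, ∫ x in (0 : ℝ)..a, Dy (Dy φ) x y * φ x y) +
      ∫ y in (0 : ℝ)..b, ∫ x in (0 : ℝ)..a, lam * (f x + h y) * φ x y ^ 2 := by
    have i1 : ∀ y, ∫ x in (0 : ℝ)..a, (Dx (Dx φ) x y * φ x y + Dy (Dy φ) x y * φ x y +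
      lam * (f x + h y) * φ x y ^ 2) = (∫ x in (0 : ℝ)..a, Dx (Dx φ) x y * φ x y) +
      (∫ x in (0 : ℝ)..a, Dy (Dy φ) x y * φ x y) +
      ∫ x in (0 : ℝ)..a, lam * (f x + h y) * φ x y ^ 2 := by
      intro y
      rw [intervalIntegral.integral_add, intervalIntegral.integral_add]
      · exact (c1.cx y).intervalIntegrable _ _
      · exact (c2.cx y).intervalIntegrable _ _
      · exact ((c1.add c2).cx y).intervalIntegrable _ _
      · exact (cV.cx y).intervalIntegrable _ _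
    simp_rw [i1]
    rw [intervalIntegral.integral_add, intervalIntegral.integral_add]
    · exact (c1.intx _ _).intervalIntegrable _ _
    · exact (c2.intx _ _).intervalIntegrable _ _
    · exact ((c1.intx _ _).add (c2.intx _ _)).intervalIntegrable _ _
    · exact (cV.intx _ _).intervalIntegrable _ _
  rw [e3, e1, e2] at e4
  linarith

/-- the averaging map -/
noncomputable def avg (a b : ℝ) (f h : ℝ → ℝ) (lam : ℝ) (n : ℕ) :
    Esp a b f h lam →ₗ[ℝ] (Fin n × Fin n → ℝ) where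
  toFun φ := fun ij => ∫ y in (((ij.2 : ℕ) : ℝ) * (b / n))..(((ij.2 : ℕ) + 1 : ℕ) * (b / n)),
      ∫ x in (((ij.1 : ℕ) : ℝ) * (a / n))..(((ij.1 : ℕ) + 1 : ℕ) * (a / n)), (φ : ℝ → ℝ → ℝ) x y
  map_add' φ ψ := by
    funext ij
    have hφ : Sm (φ : ℝ → ℝ → ℝ) := Sol.sm φ.2
    have hψ : Sm (ψ : ℝ → ℝ → ℝ) := Sol.sm ψ.2
    simp only [Pi.add_apply, Submodule.coe_add]
    rw [← intervalIntegral.integral_add]
    · congr 1
      funext y
      rw [← intervalIntegral.integral_add]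
      · exact (hφ.cn.cx y).intervalIntegrable _ _
      · exact (hψ.cn.cx y).intervalIntegrable _ _
    · exact (hφ.cn.intx _ _).intervalIntegrable _ _
    · exact (hψ.cn.intx _ _).intervalIntegrable _ _
  map_smul' c φ := by
    funext ij
    simp only [Pi.smul_apply, Submodule.coe_smul, smul_eq_mul, RingHom.id_apply]
    rw [← intervalIntegral.integral_const_mul]
    congr 1
    funext y
    rw [← intervalIntegral.integral_const_mul]

theorem fin_dim (ha : 0 < a) (hb : 0 < b) (hf : ContDiff ℝ ∞ f) (hh : ContDiff ℝ ∞ h)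
    (pf : ∀ x, f (x + a) = f x) (ph : ∀ y, h (y + b) = h y) (hl : 0 < lam) :
    FiniteDimensional ℝ (Esp a b f h lam) := by
  obtain ⟨Kf, hKf⟩ := bdd_per ha hf.continuous pf
  obtain ⟨Kh, hKh⟩ := bdd_per hb hh.continuous ph
  have hK0 : 0 ≤ Kf + Kh := add_nonneg (le_trans (abs_nonneg _) (hKf 0))
    (le_trans (abs_nonneg _) (hKh 0))
  obtain ⟨n, hn⟩ := exists_nat_gt ((a ^ 2 + b ^ 2) * (lam * (Kf + Kh)) + 1)
  have hR : 0 ≤ (a ^ 2 + b ^ 2) * (lam * (Kf + Kh)) := by positivity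
  have hn1 : (1 : ℝ) < n := by linarith
  have hn0 : 0 < n := by
    have : (0 : ℝ) < n := by linarith
    exact_mod_cast this
  have hinj : Function.Injective (avg a b f h lam n) := by
    rw [← LinearMap.ker_eq_bot, LinearMap.ker_eq_bot']
    intro φ h0
    have H : Sol a b f h lam (φ : ℝ → ℝ → ℝ) := φ.2
    have hP := poinc H.sm ha hb hn0 (by
      intro i hi j hj
      have := congrFun h0 (⟨i, hi⟩, ⟨j, hj⟩)
      exact this)
    have hE := energy hf.continuous hh.continuous H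
    set X := ∫ y in (0 : ℝ)..b, ∫ x in (0 : ℝ)..a, (φ : ℝ → ℝ → ℝ) x y ^ 2 with hX
    set P := ∫ y in (0 : ℝ)..b, ∫ x in (0 : ℝ)..a, Dx (φ : ℝ → ℝ → ℝ) x y ^ 2 with hPdef
    set Q := ∫ y in (0 : ℝ)..b, ∫ x in (0 : ℝ)..a, Dy (φ : ℝ → ℝ → ℝ) x y ^ 2 with hQdef
    have hP0 : 0 ≤ P := intervalIntegral.integral_nonneg hb.le fun y _ =>
      intervalIntegral.integral_nonneg ha.le fun x _ => sq_nonneg _
    have hQ0 : 0 ≤ Q := intervalIntegral.integral_nonneg hb.le fun y _ =>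
      intervalIntegral.integral_nonneg ha.le fun x _ => sq_nonneg _
    have hX0 : 0 ≤ X := intervalIntegral.integral_nonneg hb.le fun y _ =>
      intervalIntegral.integral_nonneg ha.le fun x _ => sq_nonneg _
    have hV : ∫ y in (0 : ℝ)..b, ∫ x in (0 : ℝ)..a, lam * (f x + h y) * (φ : ℝ → ℝ → ℝ) x y ^ 2 ≤
        lam * (Kf + Kh) * X := by
      have cV : Cn (fun x y => lam * (f x + h y) * (φ : ℝ → ℝ → ℝ) x y ^ 2) := by
        unfold Cn
        have := H.sm.cn
        unfold Cn at this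
        have := hf.continuous
        have := hh.continuous
        fun_prop
      have cS := H.sm.cn.sq
      rw [hX, ← intervalIntegral.integral_const_mul]
      apply intervalIntegral.integral_mono_on hb.le
      · exact (cV.intx _ _).intervalIntegrable _ _
      · exact (continuous_const.mul (cS.intx _ _)).intervalIntegrable _ _
      intro y _
      rw [← intervalIntegral.integral_const_mul]
      apply intervalIntegral.integral_mono_on ha.le
      · exact (cV.cx y).intervalIntegrable _ _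
      · exact (continuous_const.mul (cS.cx y)).intervalIntegrable _ _
      intro x _
      have h1 : f x + h y ≤ Kf + Kh := by
        have := le_trans (le_abs_self _) (hKf x)
        have := le_trans (le_abs_self _) (hKh y)
        linarith
      have h2 : 0 ≤ (φ : ℝ → ℝ → ℝ) x y ^ 2 := sq_nonneg _
      gcongr
    have hn0' : (0 : ℝ) < n := by linarith
    have hXle : X ≤ ((a ^ 2 + b ^ 2) * (lam * (Kf + Kh))) / n * X := by
      have s1 : (a / n) ^ 2 * P + (b / n) ^ 2 * Q ≤ (a ^ 2 + b ^ 2) / n * (P + Q) := by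
        have t1 : (a / n) ^ 2 ≤ (a ^ 2 + b ^ 2) / n := by
          rw [div_pow, div_le_div_iff₀ (by positivity) hn0']
          have : (n : ℝ) ≤ n ^ 2 := by nlinarith
          nlinarith [sq_nonneg a, sq_nonneg b, mul_nonneg (sq_nonneg b) (sq_nonneg (n : ℝ)),
            mul_le_mul_of_nonneg_left this (sq_nonneg a)]
        have t2 : (b / n) ^ 2 ≤ (a ^ 2 + b ^ 2) / n := by
          rw [div_pow, div_le_div_iff₀ (by positivity) hn0']
          have : (n : ℝ) ≤ n ^ 2 := by nlinarith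
          nlinarith [sq_nonneg a, sq_nonneg b, mul_nonneg (sq_nonneg a) (sq_nonneg (n : ℝ)),
            mul_le_mul_of_nonneg_left this (sq_nonneg b)]
        calc _ ≤ (a ^ 2 + b ^ 2) / n * P + (a ^ 2 + b ^ 2) / n * Q := by gcongr
          _ = _ := by ring
      calc X ≤ _ := hP
        _ ≤ (a ^ 2 + b ^ 2) / n * (P + Q) := s1
        _ ≤ (a ^ 2 + b ^ 2) / n * (lam * (Kf + Kh) * X) := by
            rw [hE]; gcongr
        _ = _ := by ring
    have hlt : ((a ^ 2 + b ^ 2) * (lam * (Kf + Kh))) / n < 1 := by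
      rw [div_lt_one hn0']; linarith
    have hX00 : X = 0 := by
      by_contra hne
      have : 0 < X := lt_of_le_of_ne hX0 (Ne.symm hne)
      nlinarith
    have hIP : IP a b (φ : ℝ → ℝ → ℝ) φ = 0 := by
      have e : IP a b (φ : ℝ → ℝ → ℝ) φ = X := by
        unfold IP
        rw [hX]
        simp_rw [pow_two]
      rw [e, hX00]
    have := IP_def ha hb H.sm.cn H.perx H.pery hIP
    exact Subtype.ext this
  exact Module.Finite.of_injective _ hinj

lemma aop_add (hφ : Sm φ) (hψ : Sm ψ) : Aop f lam (φ + ψ) = Aop f lam φ + Aop f lam ψ := by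
  funext x y
  change Dx (Dx (fun x y => φ x y + ψ x y)) x y + lam * (f x * (φ x y + ψ x y)) =
      (Dx (Dx φ) x y + lam * (f x * φ x y)) + (Dx (Dx ψ) x y + lam * (f x * ψ x y))
  rw [dx_add hφ hψ, dx_add hφ.dx hψ.dx]
  ring

lemma aop_smul (hφ : Sm φ) (c : ℝ) : Aop f lam (c • φ) = c • Aop f lam φ := by
  funext x y
  change Dx (Dx (fun x y => c * φ x y)) x y + lam * (f x * (c * φ x y)) =
      c * (Dx (Dx φ) x y + lam * (f x * φ x y))
  rw [dx_constMul hφ, dx_constMul hφ.dx]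
  ring

/-- **Decomposition** into joint eigenfunctions, inside an invariant subspace. -/
theorem decomp (ha : 0 < a) (hb : 0 < b) (hf : ContDiff ℝ ∞ f) (hh : ContDiff ℝ ∞ h)
    (pf : ∀ x, f (x + a) = f x) (ph : ∀ y, h (y + b) = h y) (hl : 0 < lam)
    (N : Submodule ℝ (ℝ → ℝ → ℝ)) (hN : ∀ ψ ∈ N, Sol a b f h lam ψ ∧ Aop f lam ψ ∈ N)
    (hφ : φ ∈ N) :
    ∃ (s : Finset ℝ) (w : ℝ → ℝ → ℝ → ℝ), (∀ μ, w μ ∈ N) ∧
      (∀ μ x y, Aop f lam (w μ) x y = μ * w μ x y) ∧ ∀ x y, φ x y = ∑ μ ∈ s, w μ x y := by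
  haveI := fin_dim ha hb hf hh pf ph hl
  have hle : N ≤ Esp a b f h lam := fun ψ hψ => (hN ψ hψ).1
  haveI : FiniteDimensional ℝ N :=
    Submodule.finiteDimensional_of_le hle
  let T : N →ₗ[ℝ] N :=
    { toFun := fun ψ => ⟨Aop f lam ψ, (hN ψ ψ.2).2⟩
      map_add' := fun ψ χ => Subtype.ext (aop_add (hN ψ ψ.2).1.sm (hN χ χ.2).1.sm)
      map_smul' := fun c ψ => Subtype.ext (aop_smul (hN ψ ψ.2).1.sm c) }
  have hd := diag (E := N) (fun v w => IP a b v w) (fun v w => IP_comm _ _)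
    (fun u v w => IP_add (hN u u.2).1.sm.cn (hN v v.2).1.sm.cn (hN w w.2).1.sm.cn)
    (fun c v w => IP_smul c _ _) (fun v => IP_nonneg ha hb _)
    (fun v hv => Subtype.ext (IP_def ha hb (hN v v.2).1.sm.cn (hN v v.2).1.perx
      (hN v v.2).1.pery hv)) T
    (fun v w => IP_aop hf (hN v v.2).1 (hN w w.2).1)
  obtain ⟨s, w, hw, hs⟩ := diag_sum T hd ⟨φ, hφ⟩
  refine ⟨s, fun μ => (w μ : ℝ → ℝ → ℝ), fun μ => (w μ).2, ?_, ?_⟩
  · intro μ x y
    have := congrArg Subtype.val (hw μ)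
    exact congrFun (congrFun this x) y
  · intro x y
    have := congrArg Subtype.val hs
    simp only [Submodule.coe_sum] at this
    rw [this]
    simp only [Finset.sum_apply]

end W729.YL
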