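import Mathlib

/-!
Symmetric operators for a positive definite form on a finite-dimensional real space.
-/

namespace W729.YL

lemma diag {E : Type*} [AddCommGroup E] [Module ℝ E] [FiniteDimensional ℝ E] (B : E → E → ℝ)
    (hsym : ∀ v w, B v w = B w v) (hadd : ∀ u v w, B (u + v) w = B u w + B v w)
    (hsmul : ∀ (c : ℝ) v w, B (c • v) w = c * B v w) (hnn : ∀ v, 0 ≤ B v v)
    (hdef : ∀ v, B v v = 0 → v = 0) (T : E →ₗ[ℝ] E) (hT : ∀ v w, B (T v) w = B v (T w)) :
    ⨆ μ, Module.End.eigenspace T μ = ⊤ := by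
  let c : InnerProductSpace.Core ℝ E :=
    { inner := B
      conj_inner_symm := fun x y => by simpa using hsym y x
      re_inner_nonneg := fun x => by simpa using hnn x
      add_left := fun x y z => hadd x y z
      smul_left := fun x y r => by simpa using hsmul r x y
      definite := fun x h => hdef x h }
  letI : NormedAddCommGroup E := c.toNormedAddCommGroup
  letI : InnerProductSpace ℝ E := InnerProductSpace.ofCore c.toCore
  have hs : T.IsSymmetric := fun x y => hT x y
  have h := hs.orthogonalComplement_iSup_eigenspaces_eq_bot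
  exact (Submodule.orthogonal_eq_bot_iff).1 h

lemma diag_sum {E : Type*} [AddCommGroup E] [Module ℝ E] (T : E →ₗ[ℝ] E)
    (h : ⨆ μ, Module.End.eigenspace T μ = ⊤) (v : E) :
    ∃ (s : Finset ℝ) (w : ℝ → E), (∀ μ, T (w μ) = μ • w μ) ∧ v = ∑ μ ∈ s, w μ := by
  have hv : v ∈ ⨆ μ, Module.End.eigenspace T μ := by rw [h]; trivial
  rw [Submodule.mem_iSup_iff_exists_finsupp] at hv
  obtain ⟨g, hg, hsum⟩ := hv
  exact ⟨g.support, fun μ => g μ, fun μ => Module.End.mem_eigenspace_iff.1 (hg μ), hsum.symm⟩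

lemma diag_exists {E : Type*} [AddCommGroup E] [Module ℝ E] (T : E →ₗ[ℝ] E)
    (h : ⨆ μ, Module.End.eigenspace T μ = ⊤) {v : E} (hv : v ≠ 0) :
    ∃ (w : E) (μ : ℝ), w ≠ 0 ∧ T w = μ • w := by
  obtain ⟨s, w, hw, hs⟩ := diag_sum T h v
  by_contra hcon
  push Not at hcon
  apply hv
  rw [hs]
  refine Finset.sum_eq_zero fun μ _ => ?_
  by_contra hne
  exact hcon (w μ) μ hne (hw μ)

end W729.YL
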