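import Pool.Agent.W729.YL.MaxP

/-!
Grid rectangles without sign changes on their sides contain no zeros; counting.
-/

namespace W729.YL

open Set Filter Topology ContDiff

variable {φ : ℝ → ℝ → ℝ} {a b lam : ℝ} {f h : ℝ → ℝ}

lemma nonneg_of_not_BS {u : ℝ → ℝ} {α β s : ℝ} (h : ¬ BS u α β) (hs : s ∈ Icc α β) (hpos : 0 < u s) :
    ∀ t ∈ Icc α β, 0 ≤ u t := by
  intro t ht
  by_contra hneg
  push Not at hneg
  exact h ⟨⟨s, hs, hpos⟩, ⟨t, ht, hneg⟩⟩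

lemma box_aux (ha : 0 < a) (hb : 0 < b) (hf : ContDiff ℝ ∞ f) (hh : ContDiff ℝ ∞ h)
    (pf : ∀ x, f (x + a) = f x) (ph : ∀ y, h (y + b) = h y) (hl : 0 < lam)
    (hpos : ∀ x y, 0 < f x + h y) (H : Sol a b f h lam φ) (hne : φ ≠ 0) {κ : ℝ} (hκ : 0 < κ)
    (hκ2 : ∀ x y, lam * (f x + h y) ≤ κ ^ 2) {x0 x1 y0 y1 : ℝ} (hx : x0 < x1) (hy : y0 < y1)
    (hsmall : κ * (x1 - x0) < Real.pi)
    (c00 : 0 < φ x0 y0) (c10 : φ x1 y0 ≠ 0) (c01 : φ x0 y1 ≠ 0)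
    (s1 : ¬ BS (fun x => φ x y0) x0 x1) (s2 : ¬ BS (fun x => φ x y1) x0 x1)
    (s3 : ¬ BS (fun y => φ x0 y) y0 y1) (s4 : ¬ BS (fun y => φ x1 y) y0 y1)
    {x y : ℝ} (hxx : x ∈ Ioo x0 x1) (hyy : y ∈ Ioo y0 y1) : φ x y ≠ 0 := by
  intro hz
  have lx : x0 ∈ Icc x0 x1 := ⟨le_rfl, hx.le⟩
  have rx : x1 ∈ Icc x0 x1 := ⟨hx.le, le_rfl⟩
  have ly : y0 ∈ Icc y0 y1 := ⟨le_rfl, hy.le⟩
  have ry : y1 ∈ Icc y0 y1 := ⟨hy.le, le_rfl⟩
  have b1 := nonneg_of_not_BS s1 lx c00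
  have c10' : 0 < φ x1 y0 := lt_of_le_of_ne (b1 x1 rx) (Ne.symm c10)
  have b4 := nonneg_of_not_BS s4 ly c10'
  have b3 := nonneg_of_not_BS s3 ly c00
  have c01' : 0 < φ x0 y1 := lt_of_le_of_ne (b3 y1 ry) (Ne.symm c01)
  have b2 := nonneg_of_not_BS s2 lx c01'
  have eq : ∀ x y, Dx (Dx φ) x y + Dy (Dy φ) x y = -(lam * (f x + h y)) * φ x y := by
    intro x y
    have := H.eqn' x y
    linarith
  have hnn : ∀ x ∈ Icc x0 x1, ∀ y ∈ Icc y0 y1, 0 ≤ φ x y := fun x hx' y hy' =>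
    weak H.sm (W := fun x y => lam * (f x + h y)) eq hκ hκ2 hx hsmall b1 b2 b3 b4 hx' hy'
  -- small disc inside
  obtain ⟨r, hr0, hr⟩ : ∃ r : ℝ, 0 < r ∧ ∀ x' y', N2 x y x' y' < 4 * r →
      x' ∈ Icc x0 x1 ∧ y' ∈ Icc y0 y1 := by
    set δ : ℝ := min (min (x - x0) (x1 - x)) (min (y - y0) (y1 - y)) with hδ
    have hδ0 : 0 < δ := lt_min (lt_min (by linarith [hxx.1]) (by linarith [hxx.2]))
      (lt_min (by linarith [hyy.1]) (by linarith [hyy.2]))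
    have e1 : δ ≤ x - x0 := le_trans (min_le_left _ _) (min_le_left _ _)
    have e2 : δ ≤ x1 - x := le_trans (min_le_left _ _) (min_le_right _ _)
    have e3 : δ ≤ y - y0 := le_trans (min_le_right _ _) (min_le_left _ _)
    have e4 : δ ≤ y1 - y := le_trans (min_le_right _ _) (min_le_right _ _)
    refine ⟨δ ^ 2 / 4, by positivity, ?_⟩
    intro x' y' hlt
    have hlt' : (x' - x) ^ 2 + (y' - y) ^ 2 < δ ^ 2 := by
      unfold N2 at hlt
      linarith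
    have k1 := abs_lt_of_sq_lt_sq' (a := x' - x) (by nlinarith [sq_nonneg (y' - y)]) hδ0.le
    have k2 := abs_lt_of_sq_lt_sq' (a := y' - y) (by nlinarith [sq_nonneg (x' - x)]) hδ0.le
    exact ⟨⟨by linarith [k1.1], by linarith [k1.2]⟩, ⟨by linarith [k2.1], by linarith [k2.2]⟩⟩
  -- a nonzero point nearby
  obtain ⟨q, hq, hq0⟩ : ∃ q : ℝ × ℝ, N2 x y q.1 q.2 < r ∧ φ q.1 q.2 ≠ 0 := by
    by_contra hcon
    push Not at hcon
    apply hne
    have hopen : IsOpen {q : ℝ × ℝ | N2 x y q.1 q.2 < r} :=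
      isOpen_lt (N2_cont x y) continuous_const
    refine uc ha hb hf hh pf ph hl H hopen (p := (x, y)) ?_ (fun q hq => hcon q hq)
    change N2 x y x y < r
    simp [N2, hr0]
  have hqin := hr q.1 q.2 (by linarith)
  have hqpos : 0 < φ q.1 q.2 := lt_of_le_of_ne (hnn _ hqin.1 _ hqin.2) (Ne.symm hq0)
  refine strong H.sm (W := fun x y => lam * (f x + h y)) eq
    (fun x y => (mul_pos hl (hpos x y)).le) (p1 := x) (p2 := y) (q1 := q.1) (q2 := q.2) (r := r)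
    (fun x' y' hlt => hnn x' (hr x' y' hlt).1 y' (hr x' y' hlt).2) hz ?_ hqpos
  have : N2 q.1 q.2 x y = N2 x y q.1 q.2 := by unfold N2; ring
  rw [this]
  exact hq

lemma BS_neg {u : ℝ → ℝ} {α β : ℝ} (h : ¬ BS u α β) : ¬ BS (fun x => (-1) * u x) α β := by
  rintro ⟨⟨s, hs, hs1⟩, ⟨t, ht, ht1⟩⟩
  exact h ⟨⟨t, ht, by linarith⟩, ⟨s, hs, by linarith⟩⟩

lemma box (ha : 0 < a) (hb : 0 < b) (hf : ContDiff ℝ ∞ f) (hh : ContDiff ℝ ∞ h)
    (pf : ∀ x, f (x + a) = f x) (ph : ∀ y, h (y + b) = h y) (hl : 0 < lam)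
    (hpos : ∀ x y, 0 < f x + h y) (H : Sol a b f h lam φ) (hne : φ ≠ 0) {κ : ℝ} (hκ : 0 < κ)
    (hκ2 : ∀ x y, lam * (f x + h y) ≤ κ ^ 2) {x0 x1 y0 y1 : ℝ} (hx : x0 < x1) (hy : y0 < y1)
    (hsmall : κ * (x1 - x0) < Real.pi)
    (c00 : φ x0 y0 ≠ 0) (c10 : φ x1 y0 ≠ 0) (c01 : φ x0 y1 ≠ 0)
    (s1 : ¬ BS (fun x => φ x y0) x0 x1) (s2 : ¬ BS (fun x => φ x y1) x0 x1)
    (s3 : ¬ BS (fun y => φ x0 y) y0 y1) (s4 : ¬ BS (fun y => φ x1 y) y0 y1)
    {x y : ℝ} (hxx : x ∈ Ioo x0 x1) (hyy : y ∈ Ioo y0 y1) : φ x y ≠ 0 := by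
  rcases lt_or_gt_of_ne c00 with h0 | h0
  · have H' : Sol a b f h lam (fun x y => (-1) * φ x y) := H.smul (-1)
    have hne' : (fun x y => (-1) * φ x y) ≠ 0 := by
      intro h0
      apply hne
      funext x y
      have := congrFun (congrFun h0 x) y
      simpa using this
    have := box_aux ha hb hf hh pf ph hl hpos H' hne' hκ hκ2 hx hy hsmall (by linarith)
      (mul_ne_zero (by norm_num) c10) (mul_ne_zero (by norm_num) c01) (BS_neg s1) (BS_neg s2)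
      (BS_neg s3) (BS_neg s4) hxx hyy
    intro hz
    apply this
    rw [hz, mul_zero]
  · exact box_aux ha hb hf hh pf ph hl hpos H hne hκ hκ2 hx hy hsmall h0 c10 c01 s1 s2 s3 s4 hxx hyy

/-- generic offsets: no zero at any grid point -/
lemma offset (ha : 0 < a) (hb : 0 < b) (hf : ContDiff ℝ ∞ f) (hh : ContDiff ℝ ∞ h)
    (pf : ∀ x, f (x + a) = f x) (ph : ∀ y, h (y + b) = h y) (hl : 0 < lam)
    (H : Sol a b f h lam φ) (hne : φ ≠ 0) (δ1 δ2 : ℝ) {O : Set (ℝ × ℝ)} (hO : IsOpen O)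
    (hOne : O.Nonempty) :
    ∃ p ∈ O, ∀ i j : ℕ, φ (p.1 + i * δ1) (p.2 + j * δ2) ≠ 0 := by
  set G : ℕ × ℕ → Set (ℝ × ℝ) := fun ij => {p | φ (p.1 + ij.1 * δ1) (p.2 + ij.2 * δ2) ≠ 0} with hG
  have hcont : ∀ ij : ℕ × ℕ, Continuous (fun p : ℝ × ℝ =>
      φ (p.1 + ij.1 * δ1) (p.2 + ij.2 * δ2)) := by
    intro ij
    exact Continuous.comp (g := fun p : ℝ × ℝ => φ p.1 p.2)
      (f := fun p : ℝ × ℝ => (p.1 + ij.1 * δ1, p.2 + ij.2 * δ2)) H.sm.cont (by fun_prop)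
  have hGo : ∀ ij, IsOpen (G ij) := fun ij => isOpen_ne_fun (hcont ij) continuous_const
  have hGd : ∀ ij, Dense (G ij) := by
    intro ij
    rw [dense_iff_inter_open]
    rintro U hU ⟨p, hp⟩
    by_contra hemp
    rw [Set.not_nonempty_iff_eq_empty] at hemp
    apply hne
    have hU' : IsOpen ((fun q : ℝ × ℝ => ((q.1 - ij.1 * δ1, q.2 - ij.2 * δ2) : ℝ × ℝ)) ⁻¹' U) :=
      hU.preimage (by fun_prop)
    refine uc ha hb hf hh pf ph hl H hU' (p := (p.1 + ij.1 * δ1, p.2 + ij.2 * δ2)) ?_ ?_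
    · change ((p.1 + ij.1 * δ1 - ij.1 * δ1, p.2 + ij.2 * δ2 - ij.2 * δ2) : ℝ × ℝ) ∈ U
      simpa using hp
    · intro q hq
      by_contra hq0
      have : ((q.1 - ij.1 * δ1, q.2 - ij.2 * δ2) : ℝ × ℝ) ∈ U ∩ G ij := by
        refine ⟨hq, ?_⟩
        change φ (q.1 - ij.1 * δ1 + ij.1 * δ1) (q.2 - ij.2 * δ2 + ij.2 * δ2) ≠ 0
        rw [sub_add_cancel, sub_add_cancel]
        exact hq0
      rw [hemp] at this
      exact this
  have hd := dense_iInter_of_isOpen hGo hGd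
  obtain ⟨p, hpO, hp⟩ := hd.inter_open_nonempty O hO hOne
  refine ⟨p, hpO, fun i j => ?_⟩
  exact (Set.mem_iInter.1 hp (i, j))

open Classical in
/-- number of grid rectangles whose interior contains a zero -/
theorem grid_count (ha : 0 < a) (hb : 0 < b) (hf : ContDiff ℝ ∞ f) (hh : ContDiff ℝ ∞ h)
    (pf : ∀ x, f (x + a) = f x) (ph : ∀ y, h (y + b) = h y) (hl : 0 < lam)
    (hpos : ∀ x y, 0 < f x + h y) (H : Sol a b f h lam φ) (hne : φ ≠ 0) {κ : ℝ} (hκ : 0 < κ)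
    (hκ2 : ∀ x y, lam * (f x + h y) ≤ κ ^ 2) {K1 K2 : ℝ} (hK1 : 0 ≤ K1) (hK2 : 0 ≤ K2)
    (hh1 : ∀ y m, Alt (fun x => φ x y) a m → (m : ℝ) ≤ K1)
    (hh2 : ∀ x m, Alt (fun y => φ x y) b m → (m : ℝ) ≤ K2)
    {N : ℕ} (hN : 0 < N) (hsmall : κ * (a / N) < Real.pi) {d c : ℝ}
    (hgen : ∀ i j : ℕ, φ (d + i * (a / N)) (c + j * (b / N)) ≠ 0) :
    (((Finset.range N ×ˢ Finset.range N).filter (fun ij : ℕ × ℕ =>
      ∃ x ∈ Ioo (d + ij.1 * (a / N)) (d + (ij.1 + 1 : ℕ) * (a / N)),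
      ∃ y ∈ Ioo (c + ij.2 * (b / N)) (c + (ij.2 + 1 : ℕ) * (b / N)), φ x y = 0)).card : ℝ) ≤
      4 * N * (K1 + K2) := by
  have hN0 : (0 : ℝ) < N := by exact_mod_cast hN
  set X : ℕ → ℝ := fun i => d + i * (a / N) with hX
  set Y : ℕ → ℝ := fun j => c + j * (b / N) with hY
  have haN : 0 < a / N := div_pos ha hN0
  have hbN : 0 < b / N := div_pos hb hN0
  have hXs : ∀ i, X (i + 1) - X i = a / N := fun i => by simp only [hX]; push_cast; ring
  have hYs : ∀ i, Y (i + 1) - Y i = b / N := fun i => by simp only [hY]; push_cast; ring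
  have hXl : ∀ i, X i < X (i + 1) := fun i => by have := hXs i; linarith
  have hYl : ∀ i, Y i < Y (i + 1) := fun i => by have := hYs i; linarith
  have hXN : X N = X 0 + a := by simp only [hX]; push_cast; field_simp; ring
  have hYN : Y N = Y 0 + b := by simp only [hY]; push_cast; field_simp; ring
  -- the four families
  set S1 := (Finset.range N ×ˢ Finset.range N).filter (fun ij : ℕ × ℕ =>
    BS (fun x => φ x (Y ij.2)) (X ij.1) (X (ij.1 + 1))) with hS1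
  set S2 := (Finset.range N ×ˢ Finset.range N).filter (fun ij : ℕ × ℕ =>
    BS (fun x => φ x (Y (ij.2 + 1))) (X ij.1) (X (ij.1 + 1))) with hS2
  set S3 := (Finset.range N ×ˢ Finset.range N).filter (fun ij : ℕ × ℕ =>
    BS (fun y => φ (X ij.1) y) (Y ij.2) (Y (ij.2 + 1))) with hS3
  set S4 := (Finset.range N ×ˢ Finset.range N).filter (fun ij : ℕ × ℕ =>
    BS (fun y => φ (X (ij.1 + 1)) y) (Y ij.2) (Y (ij.2 + 1))) with hS4
  have cardh : ∀ (Z : ℕ → ℝ), (((Finset.range N ×ˢ Finset.range N).filter (fun ij : ℕ × ℕ =>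
      BS (fun x => φ x (Z ij.2)) (X ij.1) (X (ij.1 + 1)))).card : ℝ) ≤ N * (2 * K1) := by
    intro Z
    rw [Finset.card_filter, Finset.sum_product_right]
    push_cast
    calc ∑ j ∈ Finset.range N, ∑ i ∈ Finset.range N,
        (if BS (fun x => φ x (Z j)) (X i) (X (i + 1)) then (1 : ℝ) else 0)
        ≤ ∑ j ∈ Finset.range N, 2 * K1 := by
          apply Finset.sum_le_sum
          intro j _
          have := count ha (fun x => H.perx x (Z j)) hK1 (hh1 (Z j)) (fun i => (hXl i).le) hXN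
          rw [Finset.card_filter] at this
          push_cast at this
          exact this
      _ = N * (2 * K1) := by simp
  have cardv : ∀ (Z : ℕ → ℝ), (((Finset.range N ×ˢ Finset.range N).filter (fun ij : ℕ × ℕ =>
      BS (fun y => φ (Z ij.1) y) (Y ij.2) (Y (ij.2 + 1)))).card : ℝ) ≤ N * (2 * K2) := by
    intro Z
    rw [Finset.card_filter, Finset.sum_product]
    push_cast
    calc ∑ i ∈ Finset.range N, ∑ j ∈ Finset.range N,
        (if BS (fun y => φ (Z i) y) (Y j) (Y (j + 1)) then (1 : ℝ) else 0)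
        ≤ ∑ i ∈ Finset.range N, 2 * K2 := by
          apply Finset.sum_le_sum
          intro i _
          have := count hb (fun y => H.pery (Z i) y) hK2 (hh2 (Z i)) (fun i => (hYl i).le) hYN
          rw [Finset.card_filter] at this
          push_cast at this
          exact this
      _ = N * (2 * K2) := by simp
  have hsub : ((Finset.range N ×ˢ Finset.range N).filter (fun ij : ℕ × ℕ =>
      ∃ x ∈ Ioo (d + ij.1 * (a / N)) (d + (ij.1 + 1 : ℕ) * (a / N)),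
      ∃ y ∈ Ioo (c + ij.2 * (b / N)) (c + (ij.2 + 1 : ℕ) * (b / N)), φ x y = 0)) ⊆
      ((S1 ∪ S2) ∪ (S3 ∪ S4)) := by
    intro ij hij
    rw [Finset.mem_filter] at hij
    obtain ⟨hmem, x, hx, y, hy, hz⟩ := hij
    by_contra hcon
    simp only [Finset.mem_union, not_or, hS1, hS2, hS3, hS4, Finset.mem_filter, hmem, true_and]
      at hcon
    obtain ⟨⟨n1, n2⟩, ⟨n3, n4⟩⟩ := hcon
    refine box ha hb hf hh pf ph hl hpos H hne hκ hκ2 (hXl ij.1) (hYl ij.2) ?_ (hgen _ _)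
      (hgen _ _) (hgen _ _) n1 n2 n3 n4 hx hy hz
    rw [hXs]
    exact hsmall
  have hc := Finset.card_le_card hsub
  have hc2 : ((S1 ∪ S2) ∪ (S3 ∪ S4)).card ≤ S1.card + S2.card + (S3.card + S4.card) :=
    le_trans (Finset.card_union_le _ _) (add_le_add (Finset.card_union_le _ _)
      (Finset.card_union_le _ _))
  have hc3 : (((Finset.range N ×ˢ Finset.range N).filter (fun ij : ℕ × ℕ =>
      ∃ x ∈ Ioo (d + ij.1 * (a / N)) (d + (ij.1 + 1 : ℕ) * (a / N)),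
      ∃ y ∈ Ioo (c + ij.2 * (b / N)) (c + (ij.2 + 1 : ℕ) * (b / N)), φ x y = 0)).card : ℝ) ≤
      S1.card + S2.card + (S3.card + S4.card) := by
    exact_mod_cast le_trans hc hc2
  have f1 := cardh Y
  have f2 := cardh (fun j => Y (j + 1))
  have f3 := cardv X
  have f4 := cardv (fun i => X (i + 1))
  have g1 : (S1.card : ℝ) ≤ N * (2 * K1) := f1
  have g2 : (S2.card : ℝ) ≤ N * (2 * K1) := f2
  have g3 : (S3.card : ℝ) ≤ N * (2 * K2) := f3
  have g4 : (S4.card : ℝ) ≤ N * (2 * K2) := f4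
  linarith

end W729.YL
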