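import Pool.Agent.W729.YL.Sm
import Pool.Agent.W729.YL.Diag

/-!
Integrals over rectangles: integration by parts, Poincaré inequality, finite dimension.
-/

namespace W729.YL

open Set Filter Topology ContDiff MeasureTheory intervalIntegral

/-- joint continuity -/
def Cn (G : ℝ → ℝ → ℝ) : Prop := Continuous (fun p : ℝ × ℝ => G p.1 p.2)

variable {G H φ ψ : ℝ → ℝ → ℝ}

lemma Cn.cx (h : Cn G) (y : ℝ) : Continuous (fun x => G x y) :=
  Continuous.comp (g := fun p : ℝ × ℝ => G p.1 p.2) (f := fun x : ℝ => ((x, y) : ℝ × ℝ)) h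
    (by fun_prop)

lemma Cn.cy (h : Cn G) (x : ℝ) : Continuous (fun y => G x y) :=
  Continuous.comp (g := fun p : ℝ × ℝ => G p.1 p.2) (f := fun y : ℝ => ((x, y) : ℝ × ℝ)) h
    (by fun_prop)

lemma Cn.intx (h : Cn G) (α β : ℝ) : Continuous (fun y => ∫ x in α..β, G x y) := by
  apply continuous_parametric_intervalIntegral_of_continuous' (f := fun y x => G x y)
  exact Continuous.comp (g := fun p : ℝ × ℝ => G p.1 p.2) h continuous_swap

lemma Cn.inty (h : Cn G) (α β : ℝ) : Continuous (fun x => ∫ y in α..β, G x y) := by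
  apply continuous_parametric_intervalIntegral_of_continuous' (f := fun x y => G x y)
  exact h

lemma Cn.swap (h : Cn G) (α β γ δ : ℝ) :
    ∫ y in γ..δ, ∫ x in α..β, G x y = ∫ x in α..β, ∫ y in γ..δ, G x y := by
  symm
  apply intervalIntegral_intervalIntegral_swap
  apply IntegrableOn.mono_set (t := uIcc α β ×ˢ uIcc γ δ)
  · exact (ContinuousOn.integrableOn_compact (isCompact_uIcc.prod isCompact_uIcc)
      (Continuous.continuousOn h))
  · exact prod_mono uIoc_subset_uIcc uIoc_subset_uIcc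

lemma Cn.mul (h : Cn G) (h' : Cn H) : Cn (fun x y => G x y * H x y) := Continuous.mul h h'
lemma Cn.add (h : Cn G) (h' : Cn H) : Cn (fun x y => G x y + H x y) := Continuous.add h h'
lemma Cn.cmul (h : Cn G) (c : ℝ) : Cn (fun x y => c * G x y) := continuous_const.mul h
lemma Cn.sq (h : Cn G) : Cn (fun x y => G x y ^ 2) := Continuous.pow h 2
lemma Sm.cn (h : Sm φ) : Cn φ := h.cont

lemma cs1 {g : ℝ → ℝ} (hg : Continuous g) {α β : ℝ} (h : α < β) :
    (∫ x in α..β, g x) ^ 2 ≤ (β - α) * ∫ x in α..β, g x ^ 2 := by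
  set I := ∫ x in α..β, g x with hI
  set c := I / (β - α) with hc
  have hδ : 0 < β - α := by linarith
  have h0 : 0 ≤ ∫ x in α..β, (g x - c) ^ 2 :=
    intervalIntegral.integral_nonneg h.le fun x _ => sq_nonneg _
  have e : ∫ x in α..β, (g x - c) ^ 2 = (∫ x in α..β, g x ^ 2) - 2 * c * I + c ^ 2 * (β - α) := by
    have e1 : ∀ x, (g x - c) ^ 2 = g x ^ 2 - 2 * c * g x + c ^ 2 := fun x => by ring
    simp_rw [e1]
    rw [intervalIntegral.integral_add, intervalIntegral.integral_sub,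
      intervalIntegral.integral_const_mul, intervalIntegral.integral_const]
    · rw [smul_eq_mul]; ring
    · exact (hg.pow 2).intervalIntegrable _ _
    · exact (continuous_const.mul hg).intervalIntegrable _ _
    · exact ((hg.pow 2).sub (continuous_const.mul hg)).intervalIntegrable _ _
    · exact continuous_const.intervalIntegrable _ _
  rw [e] at h0
  have e2 : c * (β - α) = I := by rw [hc]; field_simp
  have e3 : (∫ x in α..β, g x ^ 2) - 2 * c * I + c ^ 2 * (β - α) =
      (∫ x in α..β, g x ^ 2) - c * I := by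
    have : c ^ 2 * (β - α) = c * I := by rw [← e2]; ring
    rw [this]; ring
  rw [e3] at h0
  have h1 : 0 ≤ (β - α) * ((∫ x in α..β, g x ^ 2) - c * I) := mul_nonneg hδ.le h0
  have h2 : (β - α) * (c * I) = I ^ 2 := by
    calc (β - α) * (c * I) = (c * (β - α)) * I := by ring
      _ = I ^ 2 := by rw [e2]; ring
  nlinarith

lemma osc {u u' : ℝ → ℝ} (hu : ∀ x, HasDerivAt u (u' x) x) (hc : Continuous u') {α β : ℝ}
    (h : α < β) {s t : ℝ} (hs : s ∈ Icc α β) (ht : t ∈ Icc α β) :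
    (u s - u t) ^ 2 ≤ (β - α) * ∫ x in α..β, u' x ^ 2 := by
  wlog hst : t ≤ s generalizing s t
  · have := this ht hs (le_of_not_ge hst)
    calc (u s - u t) ^ 2 = (u t - u s) ^ 2 := by ring
      _ ≤ _ := this
  have e : u s - u t = ∫ x in t..s, u' x := by
    rw [intervalIntegral.integral_eq_sub_of_hasDerivAt (fun x _ => hu x)
      (hc.intervalIntegrable _ _)]
  have h1 : |u s - u t| ≤ ∫ x in α..β, |u' x| := by
    rw [e]
    calc |∫ x in t..s, u' x| ≤ ∫ x in t..s, |u' x| :=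
          intervalIntegral.abs_integral_le_integral_abs hst
      _ ≤ ∫ x in α..β, |u' x| := by
          apply intervalIntegral.integral_mono_interval ht.1 hst hs.2
          · exact Filter.Eventually.of_forall fun x => abs_nonneg _
          · exact hc.abs.intervalIntegrable _ _
  have h2 := cs1 hc.abs h
  simp only [sq_abs] at h2
  calc (u s - u t) ^ 2 = |u s - u t| ^ 2 := (sq_abs _).symm
    _ ≤ (∫ x in α..β, |u' x|) ^ 2 := by gcongr
    _ ≤ _ := h2

lemma l1 {u : ℝ → ℝ} (hu : Continuous u) {α β D : ℝ} (h : α < β)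
    (hD : ∀ s ∈ Icc α β, ∀ t ∈ Icc α β, (u s - u t) ^ 2 ≤ D) :
    ∫ x in α..β, u x ^ 2 ≤ (β - α) * D + (∫ x in α..β, u x) ^ 2 / (β - α) := by
  have hδ : 0 < β - α := by linarith
  obtain ⟨c, hc, hcv⟩ := exists_eq_interval_average h.ne hu.continuousOn
  have hc' : c ∈ Icc α β := by
    rw [uIoo_of_le h.le] at hc
    exact ⟨hc.1.le, hc.2.le⟩
  rw [interval_average_eq_div] at hcv
  set I := ∫ x in α..β, u x with hI
  have h1 : ∫ x in α..β, (u x - u c) ^ 2 ≤ ∫ x in α..β, D := by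
    apply intervalIntegral.integral_mono_on h.le
    · exact ((hu.sub continuous_const).pow 2).intervalIntegrable _ _
    · exact continuous_const.intervalIntegrable _ _
    · intro x hx
      exact hD x hx c hc'
  rw [intervalIntegral.integral_const, smul_eq_mul] at h1
  have e : ∫ x in α..β, (u x - u c) ^ 2 =
      (∫ x in α..β, u x ^ 2) - 2 * u c * I + u c ^ 2 * (β - α) := by
    have e1 : ∀ x, (u x - u c) ^ 2 = u x ^ 2 - 2 * u c * u x + u c ^ 2 := fun x => by ring
    simp_rw [e1]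
    rw [intervalIntegral.integral_add, intervalIntegral.integral_sub,
      intervalIntegral.integral_const_mul, intervalIntegral.integral_const]
    · rw [smul_eq_mul]; ring
    · exact (hu.pow 2).intervalIntegrable _ _
    · exact (continuous_const.mul hu).intervalIntegrable _ _
    · exact ((hu.pow 2).sub (continuous_const.mul hu)).intervalIntegrable _ _
    · exact continuous_const.intervalIntegrable _ _
  rw [e, hcv] at h1
  have e3 : 2 * (I / (β - α)) * I - (I / (β - α)) ^ 2 * (β - α) = I ^ 2 / (β - α) := by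
    field_simp
    ring
  linarith

/-- Poincaré inequality on a rectangle, for functions of mean zero -/
lemma poinc_rect (hφ : Sm φ) {x0 x1 y0 y1 : ℝ} (hx : x0 < x1) (hy : y0 < y1)
    (h0 : ∫ y in y0..y1, ∫ x in x0..x1, φ x y = 0) :
    ∫ y in y0..y1, ∫ x in x0..x1, φ x y ^ 2 ≤
      (x1 - x0) ^ 2 * (∫ y in y0..y1, ∫ x in x0..x1, Dx φ x y ^ 2) +
      (y1 - y0) ^ 2 * (∫ y in y0..y1, ∫ x in x0..x1, Dy φ x y ^ 2) := by
  have hδ : 0 < x1 - x0 := by linarith
  have hδ' : 0 < y1 - y0 := by linarith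
  set m : ℝ → ℝ := fun y => ∫ x in x0..x1, φ x y with hm
  have hmc : Continuous m := hφ.cn.intx x0 x1
  have s1 : ∀ y, ∫ x in x0..x1, φ x y ^ 2 ≤
      (x1 - x0) ^ 2 * (∫ x in x0..x1, Dx φ x y ^ 2) + m y ^ 2 / (x1 - x0) := by
    intro y
    have := l1 (hφ.cn.cx y) (D := (x1 - x0) * ∫ x in x0..x1, Dx φ x y ^ 2) hx
      (fun s hs t ht => osc (fun x => hφ.hx x y) (hφ.dx.cn.cx y) hx hs ht)
    calc _ ≤ _ := this
      _ = _ := by simp only [hm]; ring
  have s2 : ∫ y in y0..y1, ∫ x in x0..x1, φ x y ^ 2 ≤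
      ∫ y in y0..y1, ((x1 - x0) ^ 2 * (∫ x in x0..x1, Dx φ x y ^ 2) + m y ^ 2 / (x1 - x0)) := by
    apply intervalIntegral.integral_mono_on hy.le
    · exact (hφ.cn.sq.intx x0 x1).intervalIntegrable _ _
    · exact ((continuous_const.mul (hφ.dx.cn.sq.intx x0 x1)).add
        ((hmc.pow 2).div_const _)).intervalIntegrable _ _
    · intro y _
      exact s1 y
  have s3 : ∫ y in y0..y1, ((x1 - x0) ^ 2 * (∫ x in x0..x1, Dx φ x y ^ 2) +
      m y ^ 2 / (x1 - x0)) = (x1 - x0) ^ 2 * (∫ y in y0..y1, ∫ x in x0..x1, Dx φ x y ^ 2) +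
      (∫ y in y0..y1, m y ^ 2) / (x1 - x0) := by
    rw [intervalIntegral.integral_add, intervalIntegral.integral_const_mul,
      intervalIntegral.integral_div]
    · exact (continuous_const.mul (hφ.dx.cn.sq.intx x0 x1)).intervalIntegrable _ _
    · exact ((hmc.pow 2).div_const _).intervalIntegrable _ _
  have s4 : ∫ y in y0..y1, m y ^ 2 ≤ (y1 - y0) * ((x1 - x0) * (y1 - y0) *
      (∫ y in y0..y1, ∫ x in x0..x1, Dy φ x y ^ 2)) := by
    have := l1 hmc (D := (x1 - x0) * (y1 - y0) * ∫ y in y0..y1, ∫ x in x0..x1, Dy φ x y ^ 2) hy ?_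
    · rw [h0] at this
      simpa using this
    · intro s hs t ht
      have e1 : m s - m t = ∫ x in x0..x1, (φ x s - φ x t) := by
        simp only [hm]
        rw [intervalIntegral.integral_sub]
        · exact (hφ.cn.cx s).intervalIntegrable _ _
        · exact (hφ.cn.cx t).intervalIntegrable _ _
      rw [e1]
      have e2 := cs1 (g := fun x => φ x s - φ x t) ((hφ.cn.cx s).sub (hφ.cn.cx t)) hx
      have e3 : ∫ x in x0..x1, (φ x s - φ x t) ^ 2 ≤
          ∫ x in x0..x1, (y1 - y0) * ∫ y in y0..y1, Dy φ x y ^ 2 := by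
        apply intervalIntegral.integral_mono_on hx.le
        · exact (((hφ.cn.cx s).sub (hφ.cn.cx t)).pow 2).intervalIntegrable _ _
        · exact (continuous_const.mul (hφ.dy.cn.sq.inty y0 y1)).intervalIntegrable _ _
        · intro x _
          exact osc (fun y => hφ.hy x y) (hφ.dy.cn.cy x) hy hs ht
      rw [intervalIntegral.integral_const_mul, ← hφ.dy.cn.sq.swap] at e3
      calc _ ≤ _ := e2
        _ ≤ (x1 - x0) * ((y1 - y0) * ∫ y in y0..y1, ∫ x in x0..x1, Dy φ x y ^ 2) := by gcongr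
        _ = _ := by ring
  have s5 : (∫ y in y0..y1, m y ^ 2) / (x1 - x0) ≤
      (y1 - y0) ^ 2 * (∫ y in y0..y1, ∫ x in x0..x1, Dy φ x y ^ 2) := by
    rw [div_le_iff₀ hδ]
    calc _ ≤ _ := s4
      _ = _ := by ring
  linarith

lemma grid_sum (hG : Cn G) (a b : ℝ) (n : ℕ) (hn : 0 < n) :
    ∑ j ∈ Finset.range n, ∑ i ∈ Finset.range n,
      (∫ y in (j * (b / n))..((j + 1 : ℕ) * (b / n)), ∫ x in (i * (a / n))..((i + 1 : ℕ) * (a / n)),
        G x y) = ∫ y in (0 : ℝ)..b, ∫ x in (0 : ℝ)..a, G x y := by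
  have hn0 : (n : ℝ) ≠ 0 := by exact_mod_cast hn.ne'
  have h1 : ∀ y, ∑ i ∈ Finset.range n, (∫ x in (i * (a / n))..((i + 1 : ℕ) * (a / n)), G x y) =
      ∫ x in (0 : ℝ)..a, G x y := by
    intro y
    have := intervalIntegral.sum_integral_adjacent_intervals (f := fun x => G x y)
      (a := fun i : ℕ => (i : ℝ) * (a / n)) (n := n) (μ := volume)
      (fun k _ => (hG.cx y).intervalIntegrable _ _)
    rw [this]
    congr 1
    · simp
    · field_simp
  have h2 : ∀ j : ℕ, ∑ i ∈ Finset.range n,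
      (∫ y in (j * (b / n))..((j + 1 : ℕ) * (b / n)), ∫ x in (i * (a / n))..((i + 1 : ℕ) * (a / n)),
        G x y) = ∫ y in (j * (b / n))..((j + 1 : ℕ) * (b / n)), ∫ x in (0 : ℝ)..a, G x y := by
    intro j
    rw [← intervalIntegral.integral_finsetSum]
    · simp_rw [h1]
    · intro i _
      exact (hG.intx _ _).intervalIntegrable _ _
  simp_rw [h2]
  have := intervalIntegral.sum_integral_adjacent_intervals (f := fun y => ∫ x in (0 : ℝ)..a, G x y)
      (a := fun i : ℕ => (i : ℝ) * (b / n)) (n := n) (μ := volume)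
      (fun k _ => (hG.intx _ _).intervalIntegrable _ _)
  rw [this]
  congr 1
  · simp
  · field_simp

lemma poinc (hφ : Sm φ) {a b : ℝ} (ha : 0 < a) (hb : 0 < b) {n : ℕ} (hn : 0 < n)
    (h0 : ∀ i < n, ∀ j < n, ∫ y in ((j : ℝ) * (b / n))..((j + 1 : ℕ) * (b / n)),
      ∫ x in ((i : ℝ) * (a / n))..((i + 1 : ℕ) * (a / n)), φ x y = 0) :
    ∫ y in (0 : ℝ)..b, ∫ x in (0 : ℝ)..a, φ x y ^ 2 ≤
      (a / n) ^ 2 * (∫ y in (0 : ℝ)..b, ∫ x in (0 : ℝ)..a, Dx φ x y ^ 2) +
      (b / n) ^ 2 * (∫ y in (0 : ℝ)..b, ∫ x in (0 : ℝ)..a, Dy φ x y ^ 2) := by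
  have hn0 : (0 : ℝ) < n := by exact_mod_cast hn
  rw [← grid_sum hφ.cn.sq a b n hn, ← grid_sum hφ.dx.cn.sq a b n hn,
    ← grid_sum hφ.dy.cn.sq a b n hn, Finset.mul_sum, Finset.mul_sum, ← Finset.sum_add_distrib]
  apply Finset.sum_le_sum
  intro j hj
  rw [Finset.mul_sum, Finset.mul_sum, ← Finset.sum_add_distrib]
  apply Finset.sum_le_sum
  intro i hi
  rw [Finset.mem_range] at hi hj
  have hx : (i : ℝ) * (a / n) < ((i + 1 : ℕ) : ℝ) * (a / n) := by
    have : 0 < a / n := div_pos ha hn0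
    push_cast
    nlinarith
  have hy : (j : ℝ) * (b / n) < ((j + 1 : ℕ) : ℝ) * (b / n) := by
    have : 0 < b / n := div_pos hb hn0
    push_cast
    nlinarith
  have := poinc_rect hφ hx hy (h0 i hi j hj)
  have ex : ((i + 1 : ℕ) : ℝ) * (a / n) - (i : ℝ) * (a / n) = a / n := by push_cast; ring
  have ey : ((j + 1 : ℕ) : ℝ) * (b / n) - (j : ℝ) * (b / n) = b / n := by push_cast; ring
  rw [ex, ey] at this
  exact this

end W729.YL
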