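import Pool.Agent.W729.YL.Uc
import Pool.Agent.W729.YL.Cnt

/-!
Minimum principles for `φ_xx + φ_yy = - W φ`.
-/

namespace W729.YL

open Set Filter Topology ContDiff

variable {φ : ℝ → ℝ → ℝ} {W : ℝ → ℝ → ℝ}

/-- minimum principle on small rectangles -/
lemma weak (hφ : Sm φ) (eq : ∀ x y, Dx (Dx φ) x y + Dy (Dy φ) x y = -(W x y) * φ x y) {κ : ℝ}
    (hκ : 0 < κ) (hW : ∀ x y, W x y ≤ κ ^ 2) {x0 x1 y0 y1 : ℝ} (hx : x0 < x1)
    (hsmall : κ * (x1 - x0) < Real.pi)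
    (b1 : ∀ x ∈ Icc x0 x1, 0 ≤ φ x y0) (b2 : ∀ x ∈ Icc x0 x1, 0 ≤ φ x y1)
    (b3 : ∀ y ∈ Icc y0 y1, 0 ≤ φ x0 y) (b4 : ∀ y ∈ Icc y0 y1, 0 ≤ φ x1 y) {x y : ℝ}
    (hxx : x ∈ Icc x0 x1) (hyy : y ∈ Icc y0 y1) : 0 ≤ φ x y := by
  by_contra hneg
  push Not at hneg
  have hd : 0 < x1 - x0 := by linarith
  obtain ⟨κ', hκ1, hκ2⟩ : ∃ κ', κ < κ' ∧ κ' * (x1 - x0) < Real.pi := by
    have : κ < Real.pi / (x1 - x0) := by rw [lt_div_iff₀ hd]; exact hsmall
    obtain ⟨κ', h1, h2⟩ := exists_between this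
    exact ⟨κ', h1, by rwa [lt_div_iff₀ hd] at h2⟩
  have hκ' : 0 < κ' := lt_trans hκ hκ1
  set c : ℝ := (x0 + x1) / 2 with hc
  set g : ℝ → ℝ := fun x => Real.cos (κ' * (x - c)) with hg
  have hgpos : ∀ x ∈ Icc x0 x1, 0 < g x := by
    intro x hx
    apply Real.cos_pos_of_mem_Ioo
    constructor
    · have : -((x1 - x0) / 2) ≤ x - c := by rw [hc]; linarith [hx.1]
      nlinarith
    · have : x - c ≤ (x1 - x0) / 2 := by rw [hc]; linarith [hx.2]
      nlinarith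
  have hgc : Continuous g := by
    simp only [hg]; fun_prop
  have hcont : ContinuousOn (fun p : ℝ × ℝ => (- φ p.1 p.2) / g p.1) (Icc x0 x1 ×ˢ Icc y0 y1) :=
    (Continuous.neg hφ.cont).continuousOn.div (hgc.comp continuous_fst).continuousOn
      fun p hp => (hgpos p.1 hp.1).ne'
  obtain ⟨q, hq, hmax⟩ := (isCompact_Icc.prod isCompact_Icc).exists_isMaxOn ⟨(x, y), ⟨hxx, hyy⟩⟩ hcont
  set C : ℝ := (- φ q.1 q.2) / g q.1 with hC
  have hC0 : 0 < C := by
    have h1 : (- φ x y) / g x ≤ C := hmax (show (x, y) ∈ Icc x0 x1 ×ˢ Icc y0 y1 from ⟨hxx, hyy⟩)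
    have h2 : 0 < (- φ x y) / g x := div_pos (by linarith) (hgpos x hxx)
    linarith
  have hgq := hgpos q.1 hq.1
  have hφq : φ q.1 q.2 = - (C * g q.1) := by rw [hC]; field_simp
  have hφneg : φ q.1 q.2 < 0 := by rw [hφq]; have := mul_pos hC0 hgq; linarith
  have i1 : x0 < q.1 := by
    rcases hq.1.1.eq_or_lt with h | h
    · have := b3 q.2 hq.2; rw [h] at this; linarith
    · exact h
  have i2 : q.1 < x1 := by
    rcases hq.1.2.eq_or_lt with h | h
    · have := b4 q.2 hq.2; rw [← h] at this; linarith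
    · exact h
  have i3 : y0 < q.2 := by
    rcases hq.2.1.eq_or_lt with h | h
    · have := b1 q.1 hq.1; rw [h] at this; linarith
    · exact h
  have i4 : q.2 < y1 := by
    rcases hq.2.2.eq_or_lt with h | h
    · have := b2 q.1 hq.1; rw [← h] at this; linarith
    · exact h
  have hge : ∀ x ∈ Icc x0 x1, ∀ y ∈ Icc y0 y1, 0 ≤ φ x y + C * g x := by
    intro x hx y hy
    have h1 : (- φ x y) / g x ≤ C := hmax (show (x, y) ∈ Icc x0 x1 ×ˢ Icc y0 y1 from ⟨hx, hy⟩)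
    rw [div_le_iff₀ (hgpos x hx)] at h1
    linarith
  have hq0 : φ q.1 q.2 + C * g q.1 = 0 := by rw [hφq]; ring
  -- x slice
  have l1 : IsLocalMin (fun s => φ s q.2 + C * g s) q.1 := by
    filter_upwards [Icc_mem_nhds i1 i2] with s hs
    rw [hq0]
    exact hge s hs q.2 hq.2
  have l2 : IsLocalMin (fun t => φ q.1 t) q.2 := by
    filter_upwards [Icc_mem_nhds i3 i4] with t ht
    have := hge q.1 hq.1 t ht
    rw [hφq]
    linarith
  have dg : ∀ x, HasDerivAt g (-(κ' * Real.sin (κ' * (x - c)))) x := by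
    intro x
    have h1 : HasDerivAt (fun x => κ' * (x - c)) (κ' * 1) x :=
      ((hasDerivAt_id x).sub_const c).const_mul κ'
    have h2 := h1.cos
    have e : -(κ' * Real.sin (κ' * (x - c))) = -Real.sin (κ' * (x - c)) * (κ' * 1) := by ring
    rw [e]
    exact h2
  have dg' : deriv g = fun x => -(κ' * Real.sin (κ' * (x - c))) := funext fun x => (dg x).deriv
  have ddg : ∀ x, HasDerivAt (deriv g) (-(κ' ^ 2 * g x)) x := by
    intro x
    have h1 : HasDerivAt (fun x => κ' * (x - c)) (κ' * 1) x :=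
      ((hasDerivAt_id x).sub_const c).const_mul κ'
    have h2 := (h1.sin.const_mul κ').neg
    rw [dg']
    have e : -(κ' ^ 2 * g x) = -(κ' * (Real.cos (κ' * (x - c)) * (κ' * 1))) := by
      simp only [hg]; ring
    rw [e]
    exact h2
  have dψ : deriv (fun s => φ s q.2 + C * g s) = fun s => Dx φ s q.2 + C * deriv g s := by
    funext s
    have := (hφ.hx s q.2).add ((dg s).const_mul C)
    rw [(dg s).deriv]
    exact this.deriv
  have ddψ : deriv (deriv (fun s => φ s q.2 + C * g s)) q.1 =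
      Dx (Dx φ) q.1 q.2 + C * (-(κ' ^ 2 * g q.1)) := by
    rw [dψ]
    exact ((hφ.dx.hx q.1 q.2).add ((ddg q.1).const_mul C)).deriv
  have hcψ : Continuous (fun s => φ s q.2 + C * g s) :=
    (hφ.cn.cx q.2).add (continuous_const.mul hgc)
  have s1 := second_nonneg hcψ.continuousAt l1
  have s2 := second_nonneg (hφ.cn.cy q.1).continuousAt l2
  rw [ddψ] at s1
  have s2' : 0 ≤ Dy (Dy φ) q.1 q.2 := s2
  have heq := eq q.1 q.2
  rw [hφq] at heq
  have hWq := hW q.1 q.2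
  have h3 : κ ^ 2 < κ' ^ 2 := by nlinarith
  have h4 : 0 < C * g q.1 * (κ' ^ 2 - W q.1 q.2) := mul_pos (mul_pos hC0 hgq) (by linarith)
  nlinarith

/-- squared distance to `(q1, q2)` -/
def N2 (q1 q2 x y : ℝ) : ℝ := (x - q1) ^ 2 + (y - q2) ^ 2

lemma N2_cont (q1 q2 : ℝ) : Continuous (fun p : ℝ × ℝ => N2 q1 q2 p.1 p.2) := by
  unfold N2; fun_prop

lemma N2_compact (q1 q2 R : ℝ) : IsCompact {p : ℝ × ℝ | N2 q1 q2 p.1 p.2 ≤ R} := by
  have hcl : IsClosed {p : ℝ × ℝ | N2 q1 q2 p.1 p.2 ≤ R} :=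
    isClosed_le (N2_cont q1 q2) continuous_const
  refine IsCompact.of_isClosed_subset (isCompact_Icc.prod isCompact_Icc
    (s := Icc (q1 - (|R| + 1)) (q1 + (|R| + 1))) (t := Icc (q2 - (|R| + 1)) (q2 + (|R| + 1))))
    hcl ?_
  rintro ⟨x, y⟩ h
  change (x - q1) ^ 2 + (y - q2) ^ 2 ≤ R at h
  have hR : R ≤ |R| := le_abs_self R
  have hR0 : 0 ≤ |R| := abs_nonneg R
  have key : ∀ t : ℝ, t ^ 2 ≤ R → -(|R| + 1) ≤ t ∧ t ≤ |R| + 1 := by
    intro t ht
    have h1 : t ^ 2 ≤ (|R| + 1) ^ 2 := by nlinarith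
    exact abs_le.1 (abs_le_of_sq_le_sq' h1 (by linarith) |> fun h => abs_le.2 h)
  have k1 := key (x - q1) (by nlinarith [sq_nonneg (y - q2)])
  have k2 := key (y - q2) (by nlinarith [sq_nonneg (x - q1)])
  exact ⟨⟨by linarith [k1.1], by linarith [k1.2]⟩, ⟨by linarith [k2.1], by linarith [k2.2]⟩⟩

/-- strong minimum principle (Hopf) -/
lemma strong (hφ : Sm φ) (eq : ∀ x y, Dx (Dx φ) x y + Dy (Dy φ) x y = -(W x y) * φ x y)
    (hW : ∀ x y, 0 ≤ W x y) {p1 p2 q1 q2 r : ℝ}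
    (hnn : ∀ x y, N2 p1 p2 x y < 4 * r → 0 ≤ φ x y) (hp : φ p1 p2 = 0)
    (hq : N2 q1 q2 p1 p2 < r) (hqpos : 0 < φ q1 q2) : False := by
  have hNc := N2_cont q1 q2
  -- closest zero
  set K0 : Set (ℝ × ℝ) := {z | N2 q1 q2 z.1 z.2 ≤ N2 q1 q2 p1 p2} ∩ {z | φ z.1 z.2 = 0} with hK0
  have hK0c : IsCompact K0 := (N2_compact q1 q2 _).inter_right
    (isClosed_eq hφ.cont continuous_const)
  obtain ⟨z, hz, hzmin⟩ := hK0c.exists_isMinOn (⟨(p1, p2), ⟨show N2 q1 q2 p1 p2 ≤ N2 q1 q2 p1 p2 from le_refl _, hp⟩⟩ : K0.Nonempty)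
    hNc.continuousOn
  set R : ℝ := N2 q1 q2 z.1 z.2 with hR
  have hRle : R ≤ N2 q1 q2 p1 p2 := hz.1
  have hz0 : φ z.1 z.2 = 0 := hz.2
  have hRpos : 0 < R := by
    have h0 : 0 ≤ R := by rw [hR]; unfold N2; positivity
    rcases h0.eq_or_lt with h | h
    · exfalso
      have h1 : (z.1 - q1) ^ 2 = 0 ∧ (z.2 - q2) ^ 2 = 0 := by
        rw [hR] at h
        unfold N2 at h
        constructor <;> nlinarith [sq_nonneg (z.1 - q1), sq_nonneg (z.2 - q2)]
      have e1 : z.1 = q1 := by have := pow_eq_zero_iff (two_ne_zero) |>.1 h1.1; linarith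
      have e2 : z.2 = q2 := by have := pow_eq_zero_iff (two_ne_zero) |>.1 h1.2; linarith
      rw [e1, e2] at hz0
      linarith
    · exact h
  have hne : ∀ x y, N2 q1 q2 x y < R → φ x y ≠ 0 := by
    intro x y hlt h0
    have : R ≤ N2 q1 q2 x y := hzmin (show (x, y) ∈ K0 from
      ⟨show N2 q1 q2 x y ≤ N2 q1 q2 p1 p2 by linarith, h0⟩)
    linarith
  have hin : ∀ x y, N2 q1 q2 x y ≤ R → N2 p1 p2 x y < 4 * r := by
    intro x y hle
    have h1 : N2 p1 p2 x y ≤ 2 * (N2 q1 q2 x y + N2 q1 q2 p1 p2) := by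
      unfold N2
      nlinarith [sq_nonneg ((x - q1) + (p1 - q1)), sq_nonneg ((y - q2) + (p2 - q2))]
    linarith
  have hnn' : ∀ x y, N2 q1 q2 x y ≤ R → 0 ≤ φ x y := fun x y h => hnn x y (hin x y h)
  have hpos' : ∀ x y, N2 q1 q2 x y < R → 0 < φ x y := fun x y h =>
    lt_of_le_of_ne (hnn' x y h.le) (Ne.symm (hne x y h))
  -- positive minimum on the inner disc
  obtain ⟨w0, hw0, hw0min⟩ := (N2_compact q1 q2 (R / 4)).exists_isMinOn
    (⟨(q1, q2), show N2 q1 q2 q1 q2 ≤ R / 4 by simp [N2]; linarith⟩ : ({p : ℝ × ℝ | N2 q1 q2 p.1 p.2 ≤ R / 4}).Nonempty)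
    hφ.cont.continuousOn
  set m : ℝ := φ w0.1 w0.2 with hm
  have hm0 : 0 < m := hpos' _ _ (lt_of_le_of_lt hw0 (by linarith))
  have hmle : ∀ x y, N2 q1 q2 x y ≤ R / 4 → m ≤ φ x y := fun x y h =>
    hw0min (show (x, y) ∈ {p : ℝ × ℝ | N2 q1 q2 p.1 p.2 ≤ R / 4} from h)
  set α : ℝ := 8 / R with hα
  have hα0 : 0 < α := by positivity
  have hαR : α * R = 8 := by rw [hα]; field_simp
  set ε : ℝ := m / 2 with hε
  have hε0 : 0 < ε := by positivity
  set v : ℝ → ℝ → ℝ := fun x y => Real.exp (-(α * N2 q1 q2 x y)) - Real.exp (-(α * R)) with hv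
  have hvle : ∀ x y, v x y ≤ 1 := by
    intro x y
    simp only [hv]
    have h1 : Real.exp (-(α * N2 q1 q2 x y)) ≤ 1 := by
      rw [Real.exp_le_one_iff]
      have : 0 ≤ N2 q1 q2 x y := by unfold N2; positivity
      have := mul_nonneg hα0.le this
      linarith
    have := Real.exp_pos (-(α * R))
    linarith
  -- derivatives of v
  have dvx : ∀ x y, HasDerivAt (fun s => v s y)
      (-(2 * α * (x - q1)) * Real.exp (-(α * N2 q1 q2 x y))) x := by
    intro x y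
    have h1 : HasDerivAt (fun s => -(α * N2 q1 q2 s y)) (-(α * (2 * (x - q1)))) x := by
      have h2 : HasDerivAt (fun s : ℝ => (s - q1) ^ 2 + (y - q2) ^ 2) (2 * (x - q1)) x := by
        have h3 := ((hasDerivAt_id x).sub_const q1).pow 2
        have h4 := h3.add_const ((y - q2) ^ 2)
        have e : (2 * (x - q1)) = ((2 : ℕ) : ℝ) * (id x - q1) ^ (2 - 1) * 1 := by
          simp
        rw [e]
        exact h4
      exact (h2.const_mul α).neg
    have h5 := (h1.exp).sub_const (Real.exp (-(α * R)))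
    have e : -(2 * α * (x - q1)) * Real.exp (-(α * N2 q1 q2 x y)) =
        Real.exp (-(α * N2 q1 q2 x y)) * -(α * (2 * (x - q1))) := by ring
    rw [e]
    exact h5
  have dvy : ∀ x y, HasDerivAt (fun t => v x t)
      (-(2 * α * (y - q2)) * Real.exp (-(α * N2 q1 q2 x y))) y := by
    intro x y
    have h1 : HasDerivAt (fun s => -(α * N2 q1 q2 x s)) (-(α * (2 * (y - q2)))) y := by
      have h2 : HasDerivAt (fun s : ℝ => (x - q1) ^ 2 + (s - q2) ^ 2) (2 * (y - q2)) y := by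
        have h3 := ((hasDerivAt_id y).sub_const q2).pow 2
        have h4 := h3.const_add ((x - q1) ^ 2)
        have e : (2 * (y - q2)) = ((2 : ℕ) : ℝ) * (id y - q2) ^ (2 - 1) * 1 := by
          simp
        rw [e]
        exact h4
      exact (h2.const_mul α).neg
    have h5 := (h1.exp).sub_const (Real.exp (-(α * R)))
    have e : -(2 * α * (y - q2)) * Real.exp (-(α * N2 q1 q2 x y)) =
        Real.exp (-(α * N2 q1 q2 x y)) * -(α * (2 * (y - q2))) := by ring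
    rw [e]
    exact h5
  have ddvx : ∀ x y, HasDerivAt (fun s => -(2 * α * (s - q1)) * Real.exp (-(α * N2 q1 q2 s y)))
      ((-(2 * α) + 4 * α ^ 2 * (x - q1) ^ 2) * Real.exp (-(α * N2 q1 q2 x y))) x := by
    intro x y
    have h0 : HasDerivAt (fun s => Real.exp (-(α * N2 q1 q2 s y)))
        (-(2 * α * (x - q1)) * Real.exp (-(α * N2 q1 q2 x y))) x := by
      have := (dvx x y).add_const (Real.exp (-(α * R)))
      simpa [hv] using this
    have h1 : HasDerivAt (fun s => -(2 * α * (s - q1))) (-(2 * α * 1)) x :=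
      (((hasDerivAt_id x).sub_const q1).const_mul (2 * α)).neg
    have h2 := h1.mul h0
    have e : (-(2 * α) + 4 * α ^ 2 * (x - q1) ^ 2) * Real.exp (-(α * N2 q1 q2 x y)) =
        -(2 * α * 1) * Real.exp (-(α * N2 q1 q2 x y)) +
        -(2 * α * (x - q1)) * (-(2 * α * (x - q1)) * Real.exp (-(α * N2 q1 q2 x y))) := by ring
    rw [e]
    exact h2
  have ddvy : ∀ x y, HasDerivAt (fun s => -(2 * α * (s - q2)) * Real.exp (-(α * N2 q1 q2 x s)))
      ((-(2 * α) + 4 * α ^ 2 * (y - q2) ^ 2) * Real.exp (-(α * N2 q1 q2 x y))) y := by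
    intro x y
    have h0 : HasDerivAt (fun s => Real.exp (-(α * N2 q1 q2 x s)))
        (-(2 * α * (y - q2)) * Real.exp (-(α * N2 q1 q2 x y))) y := by
      have := (dvy x y).add_const (Real.exp (-(α * R)))
      simpa [hv] using this
    have h1 : HasDerivAt (fun s => -(2 * α * (s - q2))) (-(2 * α * 1)) y :=
      (((hasDerivAt_id y).sub_const q2).const_mul (2 * α)).neg
    have h2 := h1.mul h0
    have e : (-(2 * α) + 4 * α ^ 2 * (y - q2) ^ 2) * Real.exp (-(α * N2 q1 q2 x y)) =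
        -(2 * α * 1) * Real.exp (-(α * N2 q1 q2 x y)) +
        -(2 * α * (y - q2)) * (-(2 * α * (y - q2)) * Real.exp (-(α * N2 q1 q2 x y))) := by ring
    rw [e]
    exact h2
  -- comparison on the annulus
  have hvc : Continuous (fun p : ℝ × ℝ => v p.1 p.2) := by
    simp only [hv]
    have := hNc
    fun_prop
  have hψc : Continuous (fun p : ℝ × ℝ => φ p.1 p.2 - ε * v p.1 p.2) :=
    (Continuous.sub hφ.cont (continuous_const.mul hvc))
  have hcomp : ∀ x y, R / 4 ≤ N2 q1 q2 x y → N2 q1 q2 x y ≤ R → 0 ≤ φ x y - ε * v x y := by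
    intro x y hxy1 hxy2
    by_contra hcon
    push Not at hcon
    have hKc : IsCompact ({p : ℝ × ℝ | N2 q1 q2 p.1 p.2 ≤ R} ∩
        {p : ℝ × ℝ | R / 4 ≤ N2 q1 q2 p.1 p.2}) :=
      (N2_compact q1 q2 R).inter_right (isClosed_le continuous_const hNc)
    obtain ⟨w, hw, hwmin⟩ := hKc.exists_isMinOn ⟨(x, y), ⟨hxy2, hxy1⟩⟩ hψc.continuousOn
    have hwneg : φ w.1 w.2 - ε * v w.1 w.2 < 0 := by
      have : φ w.1 w.2 - ε * v w.1 w.2 ≤ φ x y - ε * v x y :=
        hwmin (show (x, y) ∈ ({p : ℝ × ℝ | N2 q1 q2 p.1 p.2 ≤ R} ∩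
        {p : ℝ × ℝ | R / 4 ≤ N2 q1 q2 p.1 p.2}) from ⟨hxy2, hxy1⟩)
      linarith
    have hw1 : N2 q1 q2 w.1 w.2 ≤ R := hw.1
    have hw2 : R / 4 ≤ N2 q1 q2 w.1 w.2 := hw.2
    have j1 : N2 q1 q2 w.1 w.2 < R := by
      rcases hw1.eq_or_lt with h | h
      · exfalso
        have hv0 : v w.1 w.2 = 0 := by simp only [hv, h, sub_self]
        rw [hv0] at hwneg
        have := hnn' w.1 w.2 hw1
        linarith
      · exact h
    have j2 : R / 4 < N2 q1 q2 w.1 w.2 := by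
      rcases hw2.eq_or_lt with h | h
      · exfalso
        have h1 := hmle w.1 w.2 h.ge
        have h2 := hvle w.1 w.2
        have : ε * v w.1 w.2 ≤ ε * 1 := by gcongr
        rw [hε] at this hwneg
        linarith
      · exact h
    have hopen : IsOpen ({p : ℝ × ℝ | N2 q1 q2 p.1 p.2 < R} ∩
        {p : ℝ × ℝ | R / 4 < N2 q1 q2 p.1 p.2}) :=
      (isOpen_lt hNc continuous_const).inter (isOpen_lt continuous_const hNc)
    have hnb : ({p : ℝ × ℝ | N2 q1 q2 p.1 p.2 < R} ∩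
        {p : ℝ × ℝ | R / 4 < N2 q1 q2 p.1 p.2}) ∈ 𝓝 (w.1, w.2) := hopen.mem_nhds ⟨j1, j2⟩
    have l1 : IsLocalMin (fun s => φ s w.2 - ε * v s w.2) w.1 := by
      have hc : Tendsto (fun s : ℝ => ((s, w.2) : ℝ × ℝ)) (𝓝 w.1) (𝓝 (w.1, w.2)) :=
        (Continuous.prodMk_left w.2).tendsto w.1
      filter_upwards [hc hnb] with s hs
      exact hwmin (show (s, w.2) ∈ ({p : ℝ × ℝ | N2 q1 q2 p.1 p.2 ≤ R} ∩
        {p : ℝ × ℝ | R / 4 ≤ N2 q1 q2 p.1 p.2}) from
          ⟨show N2 q1 q2 s w.2 ≤ R from le_of_lt hs.1,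
            show R / 4 ≤ N2 q1 q2 s w.2 from le_of_lt hs.2⟩)
    have l2 : IsLocalMin (fun t => φ w.1 t - ε * v w.1 t) w.2 := by
      have hc : Tendsto (fun t : ℝ => ((w.1, t) : ℝ × ℝ)) (𝓝 w.2) (𝓝 (w.1, w.2)) :=
        (Continuous.prodMk_right w.1).tendsto w.2
      filter_upwards [hc hnb] with s hs
      exact hwmin (show (w.1, s) ∈ ({p : ℝ × ℝ | N2 q1 q2 p.1 p.2 ≤ R} ∩
        {p : ℝ × ℝ | R / 4 ≤ N2 q1 q2 p.1 p.2}) from
          ⟨show N2 q1 q2 w.1 s ≤ R from le_of_lt hs.1,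
            show R / 4 ≤ N2 q1 q2 w.1 s from le_of_lt hs.2⟩)
    have c1 : Continuous (fun s => φ s w.2 - ε * v s w.2) :=
      hψc.comp (Continuous.prodMk_left w.2)
    have c2 : Continuous (fun t => φ w.1 t - ε * v w.1 t) :=
      hψc.comp (Continuous.prodMk_right w.1)
    have s1 := second_nonneg c1.continuousAt l1
    have s2 := second_nonneg c2.continuousAt l2
    have d1 : deriv (fun s => φ s w.2 - ε * v s w.2) = fun s => Dx φ s w.2 -
        ε * (-(2 * α * (s - q1)) * Real.exp (-(α * N2 q1 q2 s w.2))) := by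
      funext s
      exact ((hφ.hx s w.2).sub ((dvx s w.2).const_mul ε)).deriv
    have d2 : deriv (fun t => φ w.1 t - ε * v w.1 t) = fun t => Dy φ w.1 t -
        ε * (-(2 * α * (t - q2)) * Real.exp (-(α * N2 q1 q2 w.1 t))) := by
      funext s
      exact ((hφ.hy w.1 s).sub ((dvy w.1 s).const_mul ε)).deriv
    rw [d1] at s1
    rw [d2] at s2
    have dd1 : deriv (fun s => Dx φ s w.2 -
        ε * (-(2 * α * (s - q1)) * Real.exp (-(α * N2 q1 q2 s w.2)))) w.1 =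
        Dx (Dx φ) w.1 w.2 - ε * ((-(2 * α) + 4 * α ^ 2 * (w.1 - q1) ^ 2) *
          Real.exp (-(α * N2 q1 q2 w.1 w.2))) :=
      ((hφ.dx.hx w.1 w.2).sub ((ddvx w.1 w.2).const_mul ε)).deriv
    have dd2 : deriv (fun t => Dy φ w.1 t -
        ε * (-(2 * α * (t - q2)) * Real.exp (-(α * N2 q1 q2 w.1 t)))) w.2 =
        Dy (Dy φ) w.1 w.2 - ε * ((-(2 * α) + 4 * α ^ 2 * (w.2 - q2) ^ 2) *
          Real.exp (-(α * N2 q1 q2 w.1 w.2))) :=
      ((hφ.dy.hy w.1 w.2).sub ((ddvy w.1 w.2).const_mul ε)).deriv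
    rw [dd1] at s1
    rw [dd2] at s2
    have heq := eq w.1 w.2
    have hφw := hnn' w.1 w.2 hw1
    have hWw := hW w.1 w.2
    set E := Real.exp (-(α * N2 q1 q2 w.1 w.2)) with hE
    have hE0 : 0 < E := Real.exp_pos _
    have h1 : 0 ≤ W w.1 w.2 * φ w.1 w.2 := mul_nonneg hWw hφw
    have hN : (w.1 - q1) ^ 2 + (w.2 - q2) ^ 2 = N2 q1 q2 w.1 w.2 := rfl
    have h2 : 0 < (-(4 * α) + 4 * α ^ 2 * N2 q1 q2 w.1 w.2) * E := by
      apply mul_pos _ hE0
      have h3 : 2 ≤ α * N2 q1 q2 w.1 w.2 := by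
        have := mul_le_mul_of_nonneg_left hw2 hα0.le
        nlinarith
      nlinarith
    have h3 : 0 < ε * ((-(4 * α) + 4 * α ^ 2 * N2 q1 q2 w.1 w.2) * E) := mul_pos hε0 h2
    rw [← hN] at h3
    have e3 : ε * ((-(2 * α) + 4 * α ^ 2 * (w.1 - q1) ^ 2) * E) +
        ε * ((-(2 * α) + 4 * α ^ 2 * (w.2 - q2) ^ 2) * E) =
        ε * ((-(4 * α) + 4 * α ^ 2 * ((w.1 - q1) ^ 2 + (w.2 - q2) ^ 2)) * E) := by ring
    rw [neg_mul] at heq
    linarith
  -- Hopf at z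
  have hzin : N2 p1 p2 z.1 z.2 < 4 * r := hin _ _ (le_refl _)
  have hlocz : IsLocalMin (fun p : ℝ × ℝ => φ p.1 p.2) z := by
    have hopen : IsOpen {p : ℝ × ℝ | N2 p1 p2 p.1 p.2 < 4 * r} :=
      isOpen_lt (N2_cont p1 p2) continuous_const
    filter_upwards [hopen.mem_nhds hzin] with w hw
    rw [hz0]
    exact hnn w.1 w.2 hw
  have hfd : fderiv ℝ (fun p : ℝ × ℝ => φ p.1 p.2) z = 0 := hlocz.fderiv_eq_zero
  have hcurve : HasDerivAt (fun t : ℝ => ((z.1 + t * (q1 - z.1), z.2 + t * (q2 - z.2)) : ℝ × ℝ))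
      (q1 - z.1, q2 - z.2) 0 := by
    have h1 : HasDerivAt (fun t : ℝ => z.1 + t * (q1 - z.1)) (q1 - z.1) 0 := by
      simpa using ((hasDerivAt_id (0 : ℝ)).mul_const (q1 - z.1)).const_add z.1
    have h2 : HasDerivAt (fun t : ℝ => z.2 + t * (q2 - z.2)) (q2 - z.2) 0 := by
      simpa using ((hasDerivAt_id (0 : ℝ)).mul_const (q2 - z.2)).const_add z.2
    exact h1.prodMk h2
  have hφc : HasDerivAt (fun t : ℝ => φ (z.1 + t * (q1 - z.1)) (z.2 + t * (q2 - z.2))) 0 0 := by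
    have h1 : HasFDerivAt (fun p : ℝ × ℝ => φ p.1 p.2)
        (fderiv ℝ (fun p : ℝ × ℝ => φ p.1 p.2) z)
        ((fun t : ℝ => ((z.1 + t * (q1 - z.1), z.2 + t * (q2 - z.2)) : ℝ × ℝ)) 0) := by
      simp only [zero_mul, add_zero, Prod.mk.eta]
      exact (ContDiff.differentiable hφ (by simp)).differentiableAt.hasFDerivAt
    have h2 := h1.comp_hasDerivAt (0 : ℝ) hcurve
    rw [hfd, zero_apply] at h2
    exact h2
  have hNt : ∀ t : ℝ, N2 q1 q2 (z.1 + t * (q1 - z.1)) (z.2 + t * (q2 - z.2)) = (1 - t) ^ 2 * R := by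
    intro t
    rw [hR]
    unfold N2
    ring
  have hve : HasDerivAt (fun t : ℝ => Real.exp (-(α * ((1 - t) ^ 2 * R))) - Real.exp (-(α * R)))
      (16 * Real.exp (-(α * R))) 0 := by
    have h1 : HasDerivAt (fun t : ℝ => -(α * ((1 - t) ^ 2 * R))) 16 0 := by
      have h2 : HasDerivAt (fun t : ℝ => (1 - t) ^ 2) (-2) 0 := by
        have h5 := ((hasDerivAt_id (0 : ℝ)).const_sub 1).pow 2
        have e : (-2 : ℝ) = ((2 : ℕ) : ℝ) * (1 - id 0) ^ (2 - 1) * (-1) := by simp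
        rw [e]
        exact h5
      have h3 := ((h2.mul_const R).const_mul α).neg
      have e : (16 : ℝ) = -(α * (-2 * R)) := by nlinarith
      rw [e]
      exact h3
    have h4 := h1.exp.sub_const (Real.exp (-(α * R)))
    simp only [sub_zero, one_pow, one_mul] at h4
    have e : 16 * Real.exp (-(α * R)) = Real.exp (-(α * R)) * 16 := mul_comm _ _
    rw [e]
    exact h4
  have hg : HasDerivAt (fun t : ℝ => φ (z.1 + t * (q1 - z.1)) (z.2 + t * (q2 - z.2)) -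
      ε * (Real.exp (-(α * ((1 - t) ^ 2 * R))) - Real.exp (-(α * R))))
      (0 - ε * (16 * Real.exp (-(α * R)))) 0 := hφc.sub (hve.const_mul ε)
  have hslope := hg.tendsto_slope_zero_right
  have hge : 0 ≤ 0 - ε * (16 * Real.exp (-(α * R))) := by
    refine ge_of_tendsto hslope ?_
    have hI : Ioo (0 : ℝ) (1 / 2) ∈ 𝓝[>] (0 : ℝ) := Ioo_mem_nhdsGT (by norm_num)
    filter_upwards [hI] with t ht
    have e0 : φ (z.1 + 0 * (q1 - z.1)) (z.2 + 0 * (q2 - z.2)) -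
      ε * (Real.exp (-(α * ((1 - 0) ^ 2 * R))) - Real.exp (-(α * R))) = 0 := by
      simp [hz0]
    have hin1 : R / 4 ≤ (1 - t) ^ 2 * R := by
      have : (1 : ℝ) / 4 ≤ (1 - t) ^ 2 := by nlinarith [ht.1, ht.2]
      nlinarith
    have hin2 : (1 - t) ^ 2 * R ≤ R := by
      have : (1 - t) ^ 2 ≤ 1 := by nlinarith [ht.1, ht.2]
      nlinarith
    have h1 := hcomp (z.1 + t * (q1 - z.1)) (z.2 + t * (q2 - z.2)) (by rw [hNt]; exact hin1)
      (by rw [hNt]; exact hin2)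
    simp only [hv] at h1
    rw [hNt] at h1
    rw [zero_add, e0, sub_zero, smul_eq_mul]
    exact mul_nonneg (inv_nonneg.2 ht.1.le) h1
  have := mul_pos hε0 (mul_pos (by norm_num : (0 : ℝ) < 16) (Real.exp_pos (-(α * R))))
  linarith

end W729.YL
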