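import Pool.Agent.W729.YL.Core2

/-!
Smooth functions of two variables and their partial derivatives.
-/

namespace W729.YL

open Set Filter Topology ContDiff

/-- smooth function of two real variables -/
def Sm (φ : ℝ → ℝ → ℝ) : Prop := ContDiff ℝ ∞ (fun p : ℝ × ℝ => φ p.1 p.2)

/-- partial derivative in the first variable -/
noncomputable def Dx (φ : ℝ → ℝ → ℝ) : ℝ → ℝ → ℝ := fun x y => deriv (fun s => φ s y) x

/-- partial derivative in the second variable -/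
noncomputable def Dy (φ : ℝ → ℝ → ℝ) : ℝ → ℝ → ℝ := fun x y => deriv (fun t => φ x t) y

variable {φ ψ : ℝ → ℝ → ℝ}

lemma two_le_inf : (2 : WithTop ℕ∞) ≤ ∞ := WithTop.coe_le_coe.2 (le_top : (2 : ℕ∞) ≤ ⊤)

lemma Sm.slx (h : Sm φ) (y : ℝ) : ContDiff ℝ ∞ (fun s => φ s y) := by
  have : ContDiff ℝ ∞ (fun s : ℝ => ((s, y) : ℝ × ℝ)) := contDiff_id.prodMk contDiff_const
  exact ContDiff.comp (g := fun p : ℝ × ℝ => φ p.1 p.2) h this

lemma Sm.sly (h : Sm φ) (x : ℝ) : ContDiff ℝ ∞ (fun t => φ x t) := by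
  have : ContDiff ℝ ∞ (fun s : ℝ => ((x, s) : ℝ × ℝ)) := contDiff_const.prodMk contDiff_id
  exact ContDiff.comp (g := fun p : ℝ × ℝ => φ p.1 p.2) h this

lemma Sm.slx2 (h : Sm φ) (y : ℝ) : ContDiff ℝ 2 (fun s => φ s y) :=
  (h.slx y).of_le two_le_inf

lemma Sm.sly2 (h : Sm φ) (x : ℝ) : ContDiff ℝ 2 (fun t => φ x t) :=
  (h.sly x).of_le two_le_inf

lemma Sm.dx_eq (h : Sm φ) (x y : ℝ) :
    Dx φ x y = fderiv ℝ (fun p : ℝ × ℝ => φ p.1 p.2) (x, y) (1, 0) := by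
  have h1 : HasFDerivAt (fun p : ℝ × ℝ => φ p.1 p.2)
      (fderiv ℝ (fun p : ℝ × ℝ => φ p.1 p.2) (x, y)) ((fun s : ℝ => ((s, y) : ℝ × ℝ)) x) :=
    (ContDiff.differentiable h (by simp)).differentiableAt.hasFDerivAt
  have h2 : HasDerivAt (fun s : ℝ => ((s, y) : ℝ × ℝ)) (1, 0) x :=
    (hasDerivAt_id x).prodMk (hasDerivAt_const x y)
  exact (h1.comp_hasDerivAt x h2).deriv

lemma Sm.dy_eq (h : Sm φ) (x y : ℝ) :
    Dy φ x y = fderiv ℝ (fun p : ℝ × ℝ => φ p.1 p.2) (x, y) (0, 1) := by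
  have h1 : HasFDerivAt (fun p : ℝ × ℝ => φ p.1 p.2)
      (fderiv ℝ (fun p : ℝ × ℝ => φ p.1 p.2) (x, y)) ((fun s : ℝ => ((x, s) : ℝ × ℝ)) y) :=
    (ContDiff.differentiable h (by simp)).differentiableAt.hasFDerivAt
  have h2 : HasDerivAt (fun s : ℝ => ((x, s) : ℝ × ℝ)) (0, 1) y :=
    (hasDerivAt_const y x).prodMk (hasDerivAt_id y)
  exact (h1.comp_hasDerivAt y h2).deriv

lemma Sm.dx (h : Sm φ) : Sm (Dx φ) := by
  have e : (fun p : ℝ × ℝ => Dx φ p.1 p.2) =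
      fun p => fderiv ℝ (fun p : ℝ × ℝ => φ p.1 p.2) p (1, 0) :=
    funext fun p => h.dx_eq p.1 p.2
  unfold Sm
  rw [e]
  exact (ContDiff.fderiv_right h (m := ∞) (by simp)).clm_apply contDiff_const

lemma Sm.dy (h : Sm φ) : Sm (Dy φ) := by
  have e : (fun p : ℝ × ℝ => Dy φ p.1 p.2) =
      fun p => fderiv ℝ (fun p : ℝ × ℝ => φ p.1 p.2) p (0, 1) :=
    funext fun p => h.dy_eq p.1 p.2
  unfold Sm
  rw [e]
  exact (ContDiff.fderiv_right h (m := ∞) (by simp)).clm_apply contDiff_const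

lemma Sm.hx (h : Sm φ) (x y : ℝ) : HasDerivAt (fun s => φ s y) (Dx φ x y) x :=
  ((h.slx y).differentiable (by simp)).differentiableAt.hasDerivAt

lemma Sm.hy (h : Sm φ) (x y : ℝ) : HasDerivAt (fun t => φ x t) (Dy φ x y) y :=
  ((h.sly x).differentiable (by simp)).differentiableAt.hasDerivAt

lemma Sm.cont (h : Sm φ) : Continuous (fun p : ℝ × ℝ => φ p.1 p.2) := ContDiff.continuous h

/-- mixed partial derivatives commute -/
lemma Sm.comm (h : Sm φ) : Dx (Dy φ) = Dy (Dx φ) := by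
  funext x y
  set g : ℝ × ℝ → ℝ := fun p => φ p.1 p.2 with hg
  have hg1 : ContDiff ℝ ∞ g := h
  have hfd : Differentiable ℝ (fderiv ℝ g) :=
    (ContDiff.fderiv_right hg1 (m := ∞) (by simp)).differentiable (by simp)
  have hsym : IsSymmSndFDerivAt ℝ g (x, y) :=
    hg1.contDiffAt.isSymmSndFDerivAt (by simpa using two_le_inf)
  have e1 : Dx (Dy φ) x y = fderiv ℝ (fderiv ℝ g) (x, y) (1, 0) (0, 1) := by
    rw [h.dy.dx_eq]
    have e : (fun p : ℝ × ℝ => Dy φ p.1 p.2) = fun p => fderiv ℝ g p (0, 1) :=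
      funext fun p => h.dy_eq p.1 p.2
    rw [e]
    have h1 : HasFDerivAt (fun p => fderiv ℝ g p (0, 1))
        ((ContinuousLinearMap.apply ℝ ℝ ((0 : ℝ), (1 : ℝ))).comp
          (fderiv ℝ (fderiv ℝ g) (x, y))) (x, y) :=
      (ContinuousLinearMap.apply ℝ ℝ ((0 : ℝ), (1 : ℝ))).hasFDerivAt.comp (x, y)
        (hfd (x, y)).hasFDerivAt
    rw [h1.fderiv]
    rfl
  have e2 : Dy (Dx φ) x y = fderiv ℝ (fderiv ℝ g) (x, y) (0, 1) (1, 0) := by
    rw [h.dx.dy_eq]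
    have e : (fun p : ℝ × ℝ => Dx φ p.1 p.2) = fun p => fderiv ℝ g p (1, 0) :=
      funext fun p => h.dx_eq p.1 p.2
    rw [e]
    have h1 : HasFDerivAt (fun p => fderiv ℝ g p (1, 0))
        ((ContinuousLinearMap.apply ℝ ℝ ((1 : ℝ), (0 : ℝ))).comp
          (fderiv ℝ (fderiv ℝ g) (x, y))) (x, y) :=
      (ContinuousLinearMap.apply ℝ ℝ ((1 : ℝ), (0 : ℝ))).hasFDerivAt.comp (x, y)
        (hfd (x, y)).hasFDerivAt
    rw [h1.fderiv]
    rfl
  rw [e1, e2]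
  exact hsym _ _

lemma Sm.add (h : Sm φ) (h' : Sm ψ) : Sm (fun x y => φ x y + ψ x y) := ContDiff.add h h'

lemma Sm.neg (h : Sm φ) : Sm (fun x y => - φ x y) := ContDiff.neg h

lemma Sm.constMul (h : Sm φ) (c : ℝ) : Sm (fun x y => c * φ x y) := contDiff_const.mul h

lemma Sm.mulx (h : Sm φ) {c : ℝ → ℝ} (hc : ContDiff ℝ ∞ c) : Sm (fun x y => c x * φ x y) :=
  (hc.comp contDiff_fst).mul h

lemma Sm.muly (h : Sm φ) {c : ℝ → ℝ} (hc : ContDiff ℝ ∞ c) : Sm (fun x y => c y * φ x y) :=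
  (hc.comp contDiff_snd).mul h

lemma dx_add (h : Sm φ) (h' : Sm ψ) :
    Dx (fun x y => φ x y + ψ x y) = fun x y => Dx φ x y + Dx ψ x y := by
  funext x y
  exact ((h.hx x y).add (h'.hx x y)).deriv

lemma dy_add (h : Sm φ) (h' : Sm ψ) :
    Dy (fun x y => φ x y + ψ x y) = fun x y => Dy φ x y + Dy ψ x y := by
  funext x y
  exact ((h.hy x y).add (h'.hy x y)).deriv

lemma dx_constMul (h : Sm φ) (c : ℝ) : Dx (fun x y => c * φ x y) = fun x y => c * Dx φ x y := by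
  funext x y
  exact ((h.hx x y).const_mul c).deriv

lemma dy_constMul (h : Sm φ) (c : ℝ) : Dy (fun x y => c * φ x y) = fun x y => c * Dy φ x y := by
  funext x y
  exact ((h.hy x y).const_mul c).deriv

lemma dx_muly (h : Sm φ) (c : ℝ → ℝ) : Dx (fun x y => c y * φ x y) = fun x y => c y * Dx φ x y := by
  funext x y
  exact ((h.hx x y).const_mul (c y)).deriv

lemma dy_mulx (h : Sm φ) (c : ℝ → ℝ) : Dy (fun x y => c x * φ x y) = fun x y => c x * Dy φ x y := by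
  funext x y
  exact ((h.hy x y).const_mul (c x)).deriv

lemma dx_per {a : ℝ} (p : ∀ x y, φ (x + a) y = φ x y) (x y : ℝ) : Dx φ (x + a) y = Dx φ x y := by
  unfold Dx
  exact deriv_per (u := fun s => φ s y) (fun s => p s y) x

lemma dx_pery {b : ℝ} (p : ∀ x y, φ x (y + b) = φ x y) (x y : ℝ) : Dx φ x (y + b) = Dx φ x y := by
  unfold Dx
  congr 1
  funext s
  exact p s y

lemma dy_per {b : ℝ} (p : ∀ x y, φ x (y + b) = φ x y) (x y : ℝ) : Dy φ x (y + b) = Dy φ x y := by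
  unfold Dy
  exact deriv_per (u := fun s => φ x s) (fun s => p x s) y

lemma dy_perx {a : ℝ} (p : ∀ x y, φ (x + a) y = φ x y) (x y : ℝ) : Dy φ (x + a) y = Dy φ x y := by
  unfold Dy
  congr 1
  funext s
  exact p x s

/-- fourth order commutation -/
lemma Sm.comm2 (h : Sm φ) : Dx (Dx (Dy (Dy φ))) = Dy (Dy (Dx (Dx φ))) := by
  rw [h.dy.comm, h.comm, h.dx.dy.comm, h.dx.comm]

/-- A smooth, doubly periodic solution of `φ_xx + φ_yy + lam (f(x) + h(y)) φ = 0`. -/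
structure Sol (a b : ℝ) (f h : ℝ → ℝ) (lam : ℝ) (φ : ℝ → ℝ → ℝ) : Prop where
  smooth : ContDiff ℝ ∞ (fun p : ℝ × ℝ => φ p.1 p.2)
  perx : ∀ x y, φ (x + a) y = φ x y
  pery : ∀ x y, φ x (y + b) = φ x y
  eqn : ∀ x y, deriv (deriv (fun s => φ s y)) x + deriv (deriv (fun t => φ x t)) y +
    lam * (f x + h y) * φ x y = 0

/-- the operator `∂_x^2 + lam f` -/
noncomputable def Aop (f : ℝ → ℝ) (lam : ℝ) (φ : ℝ → ℝ → ℝ) : ℝ → ℝ → ℝ :=
  fun x y => Dx (Dx φ) x y + lam * (f x * φ x y)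

variable {a b lam : ℝ} {f h : ℝ → ℝ}

lemma Sol.sm (H : Sol a b f h lam φ) : Sm φ := H.smooth

lemma Sol.eqn' (H : Sol a b f h lam φ) (x y : ℝ) :
    Dx (Dx φ) x y + Dy (Dy φ) x y + lam * (f x + h y) * φ x y = 0 := H.eqn x y

lemma Sol.aop (hf : ContDiff ℝ ∞ f) (hh : ContDiff ℝ ∞ h) (pf : ∀ x, f (x + a) = f x)
    (H : Sol a b f h lam φ) : Sol a b f h lam (Aop f lam φ) := by
  have hs := H.sm
  have hA : Sm (Aop f lam φ) := hs.dx.dx.add ((hs.mulx hf).constMul lam)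
  have hB : Sm (fun x y => Dy (Dy φ) x y + lam * (h y * φ x y)) :=
    hs.dy.dy.add ((hs.muly hh).constMul lam)
  have e : Aop f lam φ = fun x y => (-1) * (Dy (Dy φ) x y + lam * (h y * φ x y)) := by
    funext x y
    have := H.eqn' x y
    unfold Aop
    linarith
  refine ⟨hA, ?_, ?_, ?_⟩
  · intro x y
    unfold Aop
    rw [dx_per (dx_per H.perx), H.perx, pf]
  · intro x y
    unfold Aop
    rw [dx_pery (dx_pery H.pery), H.pery]
  · intro x y
    change Dx (Dx (Aop f lam φ)) x y + Dy (Dy (Aop f lam φ)) x y +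
      lam * (f x + h y) * Aop f lam φ x y = 0
    have e1 : Dx (Dx (Aop f lam φ)) x y =
        -(Dx (Dx (Dy (Dy φ))) x y + lam * (h y * Dx (Dx φ) x y)) := by
      rw [e, dx_constMul hB, dx_constMul hB.dx, dx_add hs.dy.dy ((hs.muly hh).constMul lam),
        dx_add hs.dy.dy.dx ((hs.muly hh).constMul lam).dx,
        dx_constMul (hs.muly hh), dx_constMul (hs.muly hh).dx, dx_muly hs, dx_muly hs.dx]
      ring
    have e2 : Dy (Dy (Aop f lam φ)) x y =
        Dy (Dy (Dx (Dx φ))) x y + lam * (f x * Dy (Dy φ) x y) := by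
      unfold Aop
      rw [dy_add hs.dx.dx ((hs.mulx hf).constMul lam),
        dy_add hs.dx.dx.dy ((hs.mulx hf).constMul lam).dy,
        dy_constMul (hs.mulx hf), dy_constMul (hs.mulx hf).dy, dy_mulx hs, dy_mulx hs.dy]
    rw [e1, e2, hs.comm2]
    have h3 := H.eqn' x y
    have h4 : Aop f lam φ x y = Dx (Dx φ) x y + lam * (f x * φ x y) := rfl
    rw [h4]
    have h5 : Dy (Dy φ) x y = -(Dx (Dx φ) x y) - lam * (f x + h y) * φ x y := by linarith
    rw [h5]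
    ring

lemma Sol.add (H : Sol a b f h lam φ) (H' : Sol a b f h lam ψ) :
    Sol a b f h lam (φ + ψ) := by
  refine ⟨ContDiff.add H.smooth H'.smooth, ?_, ?_, ?_⟩
  · intro x y
    simp only [Pi.add_apply, H.perx, H'.perx]
  · intro x y
    simp only [Pi.add_apply, H.pery, H'.pery]
  · intro x y
    change Dx (Dx (fun x y => φ x y + ψ x y)) x y + Dy (Dy (fun x y => φ x y + ψ x y)) x y +
      lam * (f x + h y) * (φ x y + ψ x y) = 0
    rw [dx_add H.sm H'.sm, dx_add H.sm.dx H'.sm.dx, dy_add H.sm H'.sm, dy_add H.sm.dy H'.sm.dy]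
    have h1 := H.eqn' x y
    have h2 := H'.eqn' x y
    linarith

lemma Sol.smul (H : Sol a b f h lam φ) (c : ℝ) : Sol a b f h lam (c • φ) := by
  refine ⟨H.sm.constMul c, ?_, ?_, ?_⟩
  · intro x y
    simp only [Pi.smul_apply, H.perx]
  · intro x y
    simp only [Pi.smul_apply, H.pery]
  · intro x y
    change Dx (Dx (fun x y => c * φ x y)) x y + Dy (Dy (fun x y => c * φ x y)) x y +
      lam * (f x + h y) * (c * φ x y) = 0
    rw [dx_constMul H.sm, dx_constMul H.sm.dx, dy_constMul H.sm, dy_constMul H.sm.dy]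
    have h1 := H.eqn' x y
    linear_combination c * h1

lemma Sol.zero : Sol a b f h lam 0 := by
  refine ⟨contDiff_const, fun _ _ => rfl, fun _ _ => rfl, ?_⟩
  intro x y
  simp

/-- the eigenspace -/
def Esp (a b : ℝ) (f h : ℝ → ℝ) (lam : ℝ) : Submodule ℝ (ℝ → ℝ → ℝ) where
  carrier := {φ | Sol a b f h lam φ}
  add_mem' := fun H H' => Sol.add H H'
  zero_mem' := Sol.zero
  smul_mem' := fun c _ H => Sol.smul H c

lemma mem_Esp : φ ∈ Esp a b f h lam ↔ Sol a b f h lam φ := Iff.rfl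

end W729.YL
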