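import Pool.Agent.W729.YL.Dec

/-!
Unique continuation and the sign change bound on coordinate lines.
-/

namespace W729.YL

open Set Filter Topology ContDiff

variable {φ ψ : ℝ → ℝ → ℝ} {a b lam : ℝ} {f h : ℝ → ℝ}

lemma Sol.swap (H : Sol a b f h lam φ) : Sol b a h f lam (fun x y => φ y x) := by
  refine ⟨?_, fun x y => H.pery y x, fun x y => H.perx y x, fun x y => ?_⟩
  · exact ContDiff.comp (g := fun p : ℝ × ℝ => φ p.1 p.2) (f := fun p : ℝ × ℝ => (p.2, p.1)) H.smooth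
      (contDiff_snd.prodMk contDiff_fst)
  · have := H.eqn y x
    linarith

lemma joint_x {μ : ℝ} (hA : ∀ x y, Aop f lam ψ x y = μ * ψ x y) (x y : ℝ) :
    Dx (Dx ψ) x y = (μ - lam * f x) * ψ x y := by
  have := hA x y
  unfold Aop at this
  linarith

lemma joint_y {μ : ℝ} (H : Sol a b f h lam ψ) (hA : ∀ x y, Aop f lam ψ x y = μ * ψ x y)
    (x y : ℝ) : Dy (Dy ψ) x y = (-μ - lam * h y) * ψ x y := by
  have h1 := joint_x hA x y
  have h2 := H.eqn' x y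
  linarith

lemma zero_near {u : ℝ → ℝ} {x : ℝ} (hu : u =ᶠ[𝓝 x] fun _ => 0) :
    u x = 0 ∧ deriv u x = 0 ∧ deriv (deriv u) x = 0 := by
  have h1 : deriv u =ᶠ[𝓝 x] fun _ => 0 := by
    have := hu.deriv
    simpa using this
  exact ⟨hu.eq_of_nhds, h1.eq_of_nhds, by rw [h1.deriv_eq]; simp⟩

/-- joint eigenfunctions have unique continuation -/
lemma joint_uc (ha : 0 < a) (hb : 0 < b) (hf : ContDiff ℝ ∞ f) (hh : ContDiff ℝ ∞ h)
    (pf : ∀ x, f (x + a) = f x) (ph : ∀ y, h (y + b) = h y) {μ : ℝ}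
    (H : Sol a b f h lam ψ) (hA : ∀ x y, Aop f lam ψ x y = μ * ψ x y) {U : Set (ℝ × ℝ)}
    (hU : IsOpen U) {p : ℝ × ℝ} (hp : p ∈ U) (h0 : ∀ q ∈ U, ψ q.1 q.2 = 0) : ψ = 0 := by
  obtain ⟨Kf, hKf⟩ := bdd_per ha hf.continuous pf
  obtain ⟨Kh, hKh⟩ := bdd_per hb hh.continuous ph
  have hUn : U ∈ 𝓝 (p.1, p.2) := hU.mem_nhds hp
  rw [nhds_prod_eq, Filter.mem_prod_iff] at hUn
  obtain ⟨S, hS, T, hT, hST⟩ := hUn
  have c1 : ∀ x, |μ - lam * f x| ≤ |μ| + |lam| * Kf := fun x => by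
    calc |μ - lam * f x| ≤ |μ| + |lam * f x| := abs_sub _ _
      _ ≤ |μ| + |lam| * Kf := by rw [abs_mul]; gcongr; exact hKf x
  have c2 : ∀ y, |-μ - lam * h y| ≤ |μ| + |lam| * Kh := fun y => by
    calc |-μ - lam * h y| ≤ |-μ| + |lam * h y| := abs_sub _ _
      _ ≤ |μ| + |lam| * Kh := by rw [abs_mul, abs_neg]; gcongr; exact hKh y
  have s1 : ∀ y ∈ T, ∀ x, ψ x y = 0 := by
    intro y hy
    have hev : (fun s => ψ s y) =ᶠ[𝓝 p.1] fun _ => 0 := by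
      filter_upwards [hS] with s hs
      exact h0 (s, y) (hST ⟨hs, hy⟩)
    have hz := zero_near hev
    exact ode_zero (H.sm.slx2 y) c1 (fun x => joint_x hA x y) hz.1 hz.2.1
  funext x y
  have hev : (fun t => ψ x t) =ᶠ[𝓝 p.2] fun _ => 0 := by
    filter_upwards [hT] with t ht
    exact s1 t ht x
  have hz := zero_near hev
  exact ode_zero (H.sm.sly2 x) c2 (fun y => joint_y H hA x y) hz.1 hz.2.1 y

/-- functions in the eigenspace that vanish on `U` -/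
def Nsp (a b : ℝ) (f h : ℝ → ℝ) (lam : ℝ) (U : Set (ℝ × ℝ)) : Submodule ℝ (ℝ → ℝ → ℝ) where
  carrier := {φ | Sol a b f h lam φ ∧ ∀ q ∈ U, φ q.1 q.2 = 0}
  add_mem' := fun H H' => ⟨Sol.add H.1 H'.1, fun q hq => by
    simp only [Pi.add_apply, H.2 q hq, H'.2 q hq, add_zero]⟩
  zero_mem' := ⟨Sol.zero, fun _ _ => rfl⟩
  smul_mem' := fun c _ H => ⟨Sol.smul H.1 c, fun q hq => by
    simp only [Pi.smul_apply, H.2 q hq, smul_zero]⟩

/-- **Unique continuation.** -/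
theorem uc (ha : 0 < a) (hb : 0 < b) (hf : ContDiff ℝ ∞ f) (hh : ContDiff ℝ ∞ h)
    (pf : ∀ x, f (x + a) = f x) (ph : ∀ y, h (y + b) = h y) (hl : 0 < lam)
    (H : Sol a b f h lam φ) {U : Set (ℝ × ℝ)}
    (hU : IsOpen U) {p : ℝ × ℝ} (hp : p ∈ U) (h0 : ∀ q ∈ U, φ q.1 q.2 = 0) : φ = 0 := by
  obtain ⟨s, w, hw, hA, hs⟩ := decomp ha hb hf hh pf ph hl (Nsp a b f h lam U) (φ := φ) (by
    intro ψ hψ
    refine ⟨hψ.1, Sol.aop hf hh pf hψ.1, ?_⟩
    intro q hq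
    have hUn : U ∈ 𝓝 (q.1, q.2) := hU.mem_nhds hq
    have hev : (fun s => ψ s q.2) =ᶠ[𝓝 q.1] fun _ => 0 := by
      have hc : Tendsto (fun s : ℝ => ((s, q.2) : ℝ × ℝ)) (𝓝 q.1) (𝓝 (q.1, q.2)) :=
        (Continuous.prodMk_left q.2).tendsto q.1
      filter_upwards [hc hUn] with s hs
      exact hψ.2 _ hs
    have hz := zero_near hev
    change Dx (Dx ψ) q.1 q.2 + lam * (f q.1 * ψ q.1 q.2) = 0
    have e1 : Dx (Dx ψ) q.1 q.2 = 0 := hz.2.2
    rw [e1, hψ.2 q hq]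
    ring) ⟨H, h0⟩
  have hw0 : ∀ μ, w μ = 0 := fun μ =>
    joint_uc ha hb hf hh pf ph (hw μ).1 (hA μ) hU hp (hw μ).2
  funext x y
  rw [hs x y]
  refine Finset.sum_eq_zero fun μ _ => ?_
  rw [hw0 μ]
  rfl

/-- **Sign changes on horizontal lines.** -/
theorem hline (ha : 0 < a) (hb : 0 < b) (hf : ContDiff ℝ ∞ f) (hh : ContDiff ℝ ∞ h)
    (pf : ∀ x, f (x + a) = f x) (ph : ∀ y, h (y + b) = h y) (hl : 0 < lam)
    {Mf Mh : ℝ} (hMf : ∀ x, f x ≤ Mf) (hMh : ∀ y, h y ≤ Mh)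
    (H : Sol a b f h lam φ) {κ : ℝ} (hκ : 0 < κ) (hκ2 : lam * (Mf + Mh) ≤ κ ^ 2) (y : ℝ) {m : ℕ}
    (hm : Alt (fun x => φ x y) a m) : (m : ℝ) * Real.pi ≤ a * κ := by
  obtain ⟨s, w, hw, hA, hs⟩ := decomp ha hb hf hh pf ph hl (Esp a b f h lam) (φ := φ)
    (fun ψ hψ => ⟨hψ, Sol.aop hf hh pf hψ⟩) H
  have hwS : ∀ μ, Sol a b f h lam (w μ) := hw
  have e : (fun x => φ x y) = fun x => ∑ μ ∈ s, w μ x y := funext fun x => hs x y
  rw [e] at hm
  refine core ha (F := fun x => lam * f x) (continuous_const.mul hf.continuous)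
    (fun x => by simp only [pf]) s (fun μ x => w μ x y) (fun μ _ => (hwS μ).sm.slx2 y)
    (fun μ _ x => (hwS μ).perx x y) (fun μ _ x => joint_x (hA μ) x y) hκ ?_ hm
  intro μ _ hne x
  have hμ : -μ ≤ lam * Mh := by
    by_contra hcon
    push Not at hcon
    obtain ⟨x', hx'⟩ := hne
    apply hx'
    have := nonosc hb (w := fun t => w μ x' t) ((hwS μ).sm.cn.cy x')
      (fun t => (hwS μ).pery x' t) (c := fun t => -μ - lam * h t) (fun t => by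
        have : lam * h t ≤ lam * Mh := by
          have := hMh t
          gcongr
        linarith) (fun t => joint_y (hwS μ) (hA μ) x' t) y
    exact this
  have : lam * f x ≤ lam * Mf := by
    have := hMf x
    gcongr
  linarith

end W729.YL
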